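import Pool.Agent.N600.LG.Lin

/-!
# Crossed homomorphisms with finite kernel
-/

set_option autoImplicit false

namespace Pool.Agent.N600.LG

variable {Γ : Type} [Group Γ]

theorem neg_of_ne {e : ℤˣ} (h : e ≠ 1) : e = -1 := (Int.units_eq_one_or e).resolve_left h

/-- a crossed homomorphism whose extreme values on the letters are opposite -/
theorem cross_growth1 (S : Set Γ) (hS : Subgroup.closure S = ⊤) [Infinite Γ] (ε : Γ →* ℤˣ)
    (U : Γ → ℤ) (hU : ∀ g h, U (g * h) = U g + (ε g : ℤ) * U h)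
    (hker : {g | ε g = 1 ∧ U g = 0}.Finite) (V : ℤ) (p q : Γ) (hp : p ∈ S ∨ p⁻¹ ∈ S)
    (hq : q ∈ S ∨ q⁻¹ ∈ S) (hpq : ε p = ε q) (hUp : U p = V) (hUq : U q = -V)
    (hm : ∀ s, (s ∈ S ∨ s⁻¹ ∈ S) → |U s| ≤ V) :
    ∃ (D : ℕ) (b : ℤ) (k0 : ℕ), 0 < D ∧ ∀ k, k0 ≤ k → (beta S k : ℤ) = D * k + b := by
  classical
  have h1 : U 1 = 0 := by
    have := hU 1 1
    simp at this
    exact this
  have hfin : ∀ c, {g | U g = c}.Finite := by
    intro c
    have hpart : ∀ e : ℤˣ, {g | ε g = e ∧ U g = c}.Finite := by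
      intro e
      rcases Set.eq_empty_or_nonempty {g | ε g = e ∧ U g = c} with h | ⟨g0, h0⟩
      · rw [h]
        exact Set.finite_empty
      · refine (hker.preimage (f := fun g => g0⁻¹ * g)
          (fun a _ b _ h => mul_left_cancel h)).subset ?_
        intro g hg
        have e1 : U (g0⁻¹ * g) = 0 := by
          have h2 := hU g0⁻¹ g0
          rw [inv_mul_cancel, h1, h0.2] at h2
          rw [hU, hg.2]
          exact h2.symm
        refine ⟨?_, e1⟩
        show ε (g0⁻¹ * g) = 1
        rw [map_mul, map_inv, h0.1, hg.1, inv_mul_cancel]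
    refine ((hpart 1).union (hpart (-1))).subset ?_
    intro g hg
    rcases Int.units_eq_one_or (ε g) with h | h
    · exact Or.inl ⟨h, hg⟩
    · exact Or.inr ⟨h, hg⟩
  have hV0 : 0 ≤ V := (abs_nonneg _).trans (hm p hp)
  have hst : ∀ g s, (s ∈ S ∨ s⁻¹ ∈ S) → |U (g * s) - U g| ≤ V := by
    intro g s hs
    rw [hU]
    have := hm s hs
    rcases Int.units_eq_one_or (ε g) with h | h <;> rw [h]
    · simpa using this
    · simpa using this
  have hV : 0 < V := by
    rcases hV0.lt_or_eq with h | h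
    · exact h
    · exfalso
      have hz : ∀ g, U g = 0 := by
        intro g
        obtain ⟨k, hk⟩ := exists_ball hS g
        refine Ball.ind (P := fun _ g => U g = 0) (fun _ => h1) ?_ k g hk
        intro k g s hg hs
        have := hst g s hs
        rw [← h, hg, sub_zero] at this
        exact abs_nonpos_iff.1 this
      have : (Set.univ : Set Γ).Finite := (hfin 0).subset (fun g _ => hz g)
      exact Set.infinite_univ this
  refine lin_growth S hS U V hV (fun g => if ε g = 1 then g * p else g * q)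
    (fun g => if ε g = 1 then g * q else g * p) ?_ ?_ ?_ ?_ ?_ ?_ hst hfin h1
  · intro a b hab
    simp only at hab
    have hε : ε a = ε b := by
      have := congrArg ε hab
      split_ifs at this <;> simp only [map_mul, hpq] at this <;> exact mul_right_cancel this
    rw [hε] at hab
    split_ifs at hab <;> exact mul_right_cancel hab
  · intro a b hab
    simp only at hab
    have hε : ε a = ε b := by
      have := congrArg ε hab
      split_ifs at this <;> simp only [map_mul, hpq] at this <;> exact mul_right_cancel this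
    rw [hε] at hab
    split_ifs at hab <;> exact mul_right_cancel hab
  · intro g
    show U (if ε g = 1 then g * p else g * q) = _
    split_ifs with h
    · rw [hU, h, hUp]
      simp
    · rw [hU, neg_of_ne h, hUq]
      simp
  · intro g
    show U (if ε g = 1 then g * q else g * p) = _
    split_ifs with h
    · rw [hU, h, hUq]
      simp
      ring
    · rw [hU, neg_of_ne h, hUp]
      simp
      ring
  · intro g
    by_cases h : ε g = 1
    · exact ⟨p, hp, by simp [h]⟩
    · exact ⟨q, hq, by simp [h]⟩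
  · intro g
    by_cases h : ε g = 1
    · exact ⟨q, hq, by simp [h]⟩
    · exact ⟨p, hp, by simp [h]⟩

theorem cross_growth (S : Set Γ) (hS : Subgroup.closure S = ⊤) (hSf : S.Finite) [Infinite Γ]
    (ε : Γ →* ℤˣ) (x : Γ → ℤ) (hx : ∀ g h, x (g * h) = x g + (ε g : ℤ) * x h)
    (hker : {g | ε g = 1 ∧ x g = 0}.Finite) :
    ∃ (D : ℕ) (b : ℤ) (k0 : ℕ), 0 < D ∧ ∀ k, k0 ≤ k → (beta S k : ℤ) = D * k + b := by
  classical
  -- the letters
  have hTf : {s : Γ | s ∈ S ∨ s⁻¹ ∈ S}.Finite := by
    refine (hSf.union (hSf.image (fun s => s⁻¹))).subset ?_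
    rintro s (h | h)
    · exact Or.inl h
    · exact Or.inr ⟨s⁻¹, h, inv_inv s⟩
  set T : Finset Γ := hTf.toFinset with hT
  have hTm : ∀ s, s ∈ T ↔ (s ∈ S ∨ s⁻¹ ∈ S) := fun s => by simp [hT]
  -- the reflections
  set Tm : Finset Γ := T.filter (fun s => ε s ≠ 1) with hTm'
  obtain ⟨δ, hδ⟩ : ∃ δ : ℤ, ∀ s ∈ Tm, ∃ s1 ∈ Tm, ∃ s2 ∈ Tm,
      2 * x s1 - δ = -(2 * x s2 - δ) ∧ x s ≤ x s1 ∧ x s2 ≤ x s := by
    rcases Tm.eq_empty_or_nonempty with h | h
    · exact ⟨0, fun s hs => by rw [h] at hs; simp at hs⟩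
    · obtain ⟨s1, h1, h1'⟩ := Tm.exists_max_image x h
      obtain ⟨s2, h2, h2'⟩ := Tm.exists_min_image x h
      exact ⟨x s1 + x s2, fun s hs => ⟨s1, h1, s2, h2, by ring, h1' s hs, h2' s hs⟩⟩
  set U : Γ → ℤ := fun g => 2 * x g - (if ε g = 1 then 0 else δ) with hUdef
  have hU : ∀ g h, U (g * h) = U g + (ε g : ℤ) * U h := by
    intro g h
    simp only [hUdef]
    rw [hx, map_mul]
    rcases Int.units_eq_one_or (ε g) with h1 | h1 <;> rcases Int.units_eq_one_or (ε h) with h2 | h2
    · rw [h1, h2]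
      simp
      ring
    · rw [h1, h2]
      have h3 : (-1 : ℤˣ) ≠ 1 := by decide
      simp [h3]
      ring
    · rw [h1, h2]
      have h3 : (-1 : ℤˣ) ≠ 1 := by decide
      simp [h3]
      ring
    · rw [h1, h2]
      have h3 : (-1 : ℤˣ) ≠ 1 := by decide
      simp [h3]
      ring
  have h1 : U 1 = 0 := by
    have := hU 1 1
    simp at this
    exact this
  have hinv : ∀ s, ε s = 1 → U s⁻¹ = -U s := by
    intro s hs
    have := hU s s⁻¹
    rw [mul_inv_cancel, h1, hs] at this
    simp at this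
    linarith
  have hkerU : {g | ε g = 1 ∧ U g = 0}.Finite := by
    refine hker.subset ?_
    rintro g ⟨h2, h3⟩
    refine ⟨h2, ?_⟩
    simp only [hUdef, h2, if_true] at h3
    omega
  have hTne : T.Nonempty := by
    by_contra h
    rw [Finset.not_nonempty_iff_eq_empty] at h
    have hSe : S = ∅ := by
      ext s
      constructor
      · intro hs
        have := (hTm s).2 (Or.inl hs)
        rw [h] at this
        simp at this
      · simp
    rw [hSe, Subgroup.closure_empty] at hS
    have : (Set.univ : Set Γ).Finite := by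
      refine (Set.finite_singleton (1 : Γ)).subset ?_
      intro g _
      have : g ∈ (⊤ : Subgroup Γ) := trivial
      rw [← hS] at this
      exact Subgroup.mem_bot.1 this
    exact Set.infinite_univ this
  obtain ⟨p, hp, hpmax⟩ := T.exists_max_image U hTne
  have hTinv : ∀ s ∈ T, s⁻¹ ∈ T := by
    intro s hs
    rw [hTm] at hs ⊢
    rcases hs with h | h
    · exact Or.inr (by rwa [inv_inv])
    · exact Or.inl h
  -- values of U on reflections
  have hUr : ∀ s ∈ Tm, U s = 2 * x s - δ := by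
    intro s hs
    have := (Finset.mem_filter.1 hs).2
    simp only [hUdef, this, if_false]
  have habs : ∀ s ∈ T, |U s| ≤ U p := by
    intro s hs
    rw [abs_le]
    refine ⟨?_, hpmax s hs⟩
    by_cases h : ε s = 1
    · have := hpmax _ (hTinv s hs)
      rw [hinv s h] at this
      linarith
    · have hsm : s ∈ Tm := Finset.mem_filter.2 ⟨hs, h⟩
      obtain ⟨s1, hs1, s2, hs2, he, h3, h4⟩ := hδ s hsm
      have h5 := hpmax s1 (Finset.mem_filter.1 hs1).1
      rw [hUr s1 hs1] at h5
      rw [hUr s hsm]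
      linarith
  obtain ⟨q, hq, hpq, hUq⟩ : ∃ q ∈ T, ε p = ε q ∧ U q = -U p := by
    by_cases h : ε p = 1
    · exact ⟨p⁻¹, hTinv p hp, by rw [map_inv, h, inv_one], hinv p h⟩
    · have hpm : p ∈ Tm := Finset.mem_filter.2 ⟨hp, h⟩
      obtain ⟨s1, hs1, s2, hs2, he, h3, h4⟩ := hδ p hpm
      have h5 := hpmax s1 (Finset.mem_filter.1 hs1).1
      rw [hUr s1 hs1, hUr p hpm] at h5
      refine ⟨s2, (Finset.mem_filter.1 hs2).1, ?_, ?_⟩
      · rw [neg_of_ne h, neg_of_ne (Finset.mem_filter.1 hs2).2]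
      · rw [hUr s2 hs2, hUr p hpm]
        linarith
  exact cross_growth1 S hS ε U hU hkerU (U p) p q ((hTm p).1 hp) ((hTm q).1 hq) hpq rfl hUq
    (fun s hs => habs s ((hTm s).2 hs))

end Pool.Agent.N600.LG
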