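import Pool.Agent.N600.LG.Virt

/-!
# Limits
-/

set_option autoImplicit false

namespace Pool.Agent.N600.LG

open Filter Topology

variable {Γ : Type} [Group Γ]

/-- auxiliary finite sets containing the balls -/
def FF (T : Set Γ) : ℕ → Set Γ
  | 0 => {1}
  | k + 1 => FF T k ∪ Set.image2 (fun g s => g * s) (FF T k) T

theorem ball_finite {S : Set Γ} (hS : S.Finite) (k : ℕ) : (Ball S k).Finite := by
  have hTf : {s : Γ | s ∈ S ∨ s⁻¹ ∈ S}.Finite := by
    refine (hS.union (hS.image (fun s => s⁻¹))).subset ?_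
    rintro s (h | h)
    · exact Or.inl h
    · exact Or.inr ⟨s⁻¹, h, inv_inv s⟩
  set T := {s : Γ | s ∈ S ∨ s⁻¹ ∈ S} with hT
  have hF : ∀ k, (FF T k).Finite := by
    intro k
    induction k with
    | zero => exact Set.finite_singleton 1
    | succ k ih => exact ih.union (Set.Finite.image2 _ ih hTf)
  have h0 : ∀ k, (1 : Γ) ∈ FF T k := by
    intro k
    induction k with
    | zero => exact Set.mem_singleton 1
    | succ k ih => exact Or.inl ih
  refine (hF k).subset ?_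
  intro g hg
  exact Ball.ind (P := fun k g => g ∈ FF T k) h0
    (fun k g s hg hs => Or.inr ⟨g, hg, s, hs, rfl⟩) k g hg

theorem sphere_card {S : Set Γ} (hS : S.Finite) {c : ℕ} {b : ℤ} {k0 : ℕ}
    (h : ∀ k, k0 ≤ k → (beta S k : ℤ) = c * k + b) :
    ∀ k, k0 ≤ k → (Ball S (k + 1) \ Ball S k).ncard = c := by
  intro k hk
  rw [Set.ncard_sdiff (Ball.mono S (by omega : k ≤ k + 1)) (ball_finite hS k)]
  have h1 := h k hk
  have h2 := h (k + 1) (by omega)
  unfold beta at h1 h2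
  push_cast at h2
  have h3 : ((Ball S (k + 1)).ncard : ℤ) = (Ball S k).ncard + c := by
    rw [h1, h2]
    ring
  omega

theorem tend1 {S : Set Γ} {c : ℕ} {b : ℤ} {k0 : ℕ}
    (h : ∀ k, k0 ≤ k → (beta S k : ℤ) = c * k + b) :
    Tendsto (fun k : ℕ => (beta S k : ℝ) / (k : ℝ) ^ 1) atTop (𝓝 (c : ℝ)) := by
  have h1 : Tendsto (fun k : ℕ => (c : ℝ) + (b : ℝ) / (k : ℝ)) atTop (𝓝 ((c : ℝ) + 0)) :=
    tendsto_const_nhds.add (tendsto_const_div_atTop_nhds_zero_nat (b : ℝ))
  rw [add_zero] at h1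
  refine h1.congr' ?_
  filter_upwards [eventually_ge_atTop (max k0 1)] with k hk
  have h2 : (beta S k : ℝ) = c * k + b := by exact_mod_cast h k (le_trans (le_max_left _ _) hk)
  have h3 : (k : ℝ) ≠ 0 := by
    have : 1 ≤ k := le_trans (le_max_right _ _) hk
    positivity
  rw [h2]
  field_simp

theorem tend2 {S : Set Γ} {c : ℕ} {b : ℤ} {k0 : ℕ}
    (h : ∀ k, k0 ≤ k → (beta S k : ℤ) = c * k + b) :
    Tendsto (fun k : ℕ => ((beta S k : ℝ) - c * (k : ℝ) ^ 1) / (k : ℝ) ^ 0) atTop (𝓝 (b : ℝ)) := by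
  refine tendsto_const_nhds.congr' ?_
  filter_upwards [eventually_ge_atTop k0] with k hk
  have h2 : (beta S k : ℝ) = c * k + b := by exact_mod_cast h k hk
  rw [h2]
  ring

theorem fin_growth [Finite Γ] (S : Set Γ) (hS : Subgroup.closure S = ⊤) :
    ∃ k0, ∀ k, k0 ≤ k → beta S k = Nat.card Γ := by
  choose f hf using exists_ball hS
  obtain ⟨m, hm⟩ := (Set.finite_range f).bddAbove
  refine ⟨m, fun k hk => ?_⟩
  have : Ball S k = Set.univ := by
    rw [Set.eq_univ_iff_forall]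
    exact fun g => Ball.mono S ((hm (Set.mem_range_self g)).trans hk) (hf g)
  rw [beta, this, Set.ncard_univ]

end Pool.Agent.N600.LG
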