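import Mathlib

/-!
# Groups of linear growth: the spheres have eventually constant size (page MP_b3b911_al)
-/

set_option autoImplicit false

namespace Pool.Agent.N600.LG

/-- the ball of radius `k` around `1` in the word metric of `S ∪ S⁻¹` -/
def Ball {Γ : Type} [Group Γ] (S : Set Γ) (k : ℕ) : Set Γ :=
  {g | ∃ l : List Γ, l.length ≤ k ∧ (∀ s ∈ l, s ∈ S ∨ s⁻¹ ∈ S) ∧ l.prod = g}

/-- the growth function -/
noncomputable def beta {Γ : Type} [Group Γ] (S : Set Γ) (k : ℕ) : ℕ := (Ball S k).ncard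

variable {Γ : Type} [Group Γ]

theorem Ball.mono (S : Set Γ) {k m : ℕ} (h : k ≤ m) : Ball S k ⊆ Ball S m := by
  rintro g ⟨l, hl, h1, h2⟩
  exact ⟨l, hl.trans h, h1, h2⟩

theorem Ball.mul {S : Set Γ} {k : ℕ} {g s : Γ} (hg : g ∈ Ball S k) (hs : s ∈ S ∨ s⁻¹ ∈ S) :
    g * s ∈ Ball S (k + 1) := by
  obtain ⟨l, hl, h1, rfl⟩ := hg
  refine ⟨l ++ [s], by simp; exact hl, ?_, by simp⟩
  intro a ha
  rcases List.mem_append.1 ha with h | h
  · exact h1 a h
  · rw [List.mem_singleton.1 h]
    exact hs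

theorem Ball.ind {S : Set Γ} {P : ℕ → Γ → Prop} (h0 : ∀ k, P k 1)
    (hs : ∀ k g s, P k g → (s ∈ S ∨ s⁻¹ ∈ S) → P (k + 1) (g * s)) :
    ∀ k, ∀ g ∈ Ball S k, P k g := by
  have key : ∀ (l : List Γ), (∀ s ∈ l, s ∈ S ∨ s⁻¹ ∈ S) → ∀ k, l.length ≤ k → P k l.prod := by
    intro l
    induction l using List.reverseRecOn with
    | nil =>
      intro _ k _
      simpa using h0 k
    | append_singleton l a ih =>
      intro hl k hk
      rw [List.length_append, List.length_singleton] at hk
      obtain ⟨m, rfl⟩ : ∃ m, k = m + 1 := ⟨k - 1, by omega⟩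
      rw [List.prod_append, List.prod_singleton]
      exact hs m _ a (ih (fun s h => hl s (by simp [h])) m (by omega)) (hl a (by simp))
  rintro k g ⟨l, hl, h1, rfl⟩
  exact key l h1 k hl

theorem exists_ball {S : Set Γ} (hS : Subgroup.closure S = ⊤) (g : Γ) : ∃ k, g ∈ Ball S k := by
  have : g ∈ Submonoid.closure (S ∪ S⁻¹) := by
    rw [← Subgroup.closure_toSubmonoid, hS]
    trivial
  obtain ⟨l, h1, h2⟩ := Submonoid.exists_list_of_mem_closure this
  exact ⟨l.length, l, le_rfl, fun s hs => h1 s hs, h2⟩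

/-- a nonincreasing sequence of natural numbers is eventually constant -/
theorem ev_const (f : ℕ → ℕ) (k0 : ℕ) (h : ∀ k, k0 ≤ k → f (k + 1) ≤ f k) :
    ∃ k1, k0 ≤ k1 ∧ ∀ k, k1 ≤ k → f k = f k1 := by
  classical
  have hne : ∃ n, ∃ k, k0 ≤ k ∧ f k = n := ⟨f k0, k0, le_rfl, rfl⟩
  obtain ⟨k1, hk1, hf⟩ := Nat.find_spec hne
  refine ⟨k1, hk1, ?_⟩
  intro k hk
  have h1 : f k ≤ f k1 := by
    induction k, hk using Nat.le_induction with
    | base => exact le_rfl
    | succ k hk ih => exact (h k (hk1.trans hk)).trans ih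
  have h2 : Nat.find hne ≤ f k := Nat.find_min' hne ⟨k, hk1.trans hk, rfl⟩
  omega

theorem lin_growth (S : Set Γ) (hS : Subgroup.closure S = ⊤) (U : Γ → ℤ) (V : ℤ) (hV : 0 < V)
    (R L : Γ → Γ) (hRi : Function.Injective R) (hLi : Function.Injective L)
    (hR : ∀ g, U (R g) = U g + V) (hL : ∀ g, U (L g) = U g - V)
    (hRS : ∀ g, ∃ s, (s ∈ S ∨ s⁻¹ ∈ S) ∧ R g = g * s)
    (hLS : ∀ g, ∃ s, (s ∈ S ∨ s⁻¹ ∈ S) ∧ L g = g * s)
    (hst : ∀ g s, (s ∈ S ∨ s⁻¹ ∈ S) → |U (g * s) - U g| ≤ V)
    (hfin : ∀ c, {g | U g = c}.Finite) (h1 : U 1 = 0) :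
    ∃ (D : ℕ) (b : ℤ) (k0 : ℕ), 0 < D ∧ ∀ k, k0 ≤ k → (beta S k : ℤ) = D * k + b := by
  classical
  have hI : ∀ a b : ℤ, {g | a ≤ U g ∧ U g ≤ b}.Finite := by
    intro a b
    exact Set.Finite.preimage' (Set.finite_Icc a b) (fun c _ => hfin c)
  have hI' : ∀ (a b : ℤ) (P : Γ → Prop), (∀ g, P g → a ≤ U g ∧ U g ≤ b) → {g | P g}.Finite :=
    fun a b P h => (hI a b).subset h
  have hB : ∀ k : ℕ, ∀ g ∈ Ball S k, -(V * k) ≤ U g ∧ U g ≤ V * k := by
    apply Ball.ind
    · intro k
      rw [h1]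
      constructor
      · have : 0 ≤ V * (k : ℤ) := by positivity
        omega
      · positivity
    · intro k g s hg hs
      have := abs_le.1 (hst g s hs)
      push_cast
      constructor <;> nlinarith [this.1, this.2, hg.1, hg.2]
  set mid : Set Γ := {g | -V ≤ U g ∧ U g < V} with hmid
  have hmidf : mid.Finite := hI' (-V) V _ (fun g hg => ⟨hg.1, hg.2.le⟩)
  set D := mid.ncard with hD
  -- the middle part is contained in a ball
  obtain ⟨k0, hk0⟩ : ∃ k0, mid ⊆ Ball S k0 := by
    choose f hf using exists_ball hS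
    obtain ⟨m, hm⟩ := (hmidf.image f).bddAbove
    exact ⟨m, fun g hg => Ball.mono S (hm (Set.mem_image_of_mem f hg)) (hf g)⟩
  have hBf : ∀ k, (Ball S k).Finite := fun k => hI' _ _ _ (hB k)
  -- lower bound
  have hlow : ∀ k, k0 ≤ k → beta S k + D ≤ beta S (k + 1) := by
    intro k hk
    set X : Set Γ := {g | g ∈ Ball S k ∧ 0 ≤ U g} with hX
    set Y : Set Γ := {g | g ∈ Ball S k ∧ U g < 0} with hY
    have hXf : X.Finite := (hBf k).subset (fun g hg => hg.1)
    have hYf : Y.Finite := (hBf k).subset (fun g hg => hg.1)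
    have hXY : Ball S k = X ∪ Y := by
      ext g
      simp only [hX, hY, Set.mem_union, Set.mem_ofPred_eq]
      constructor
      · intro h
        rcases lt_or_ge (U g) 0 with h2 | h2
        · exact Or.inr ⟨h, h2⟩
        · exact Or.inl ⟨h, h2⟩
      · rintro (h | h) <;> exact h.1
    have hd : Disjoint X Y := by
      rw [Set.disjoint_left]
      rintro g ⟨_, h2⟩ ⟨_, h3⟩
      omega
    have e1 : beta S k = X.ncard + Y.ncard := by
      rw [beta, hXY, Set.ncard_union_eq hd hXf hYf]
    have e2 : (R '' X).ncard = X.ncard := Set.ncard_image_of_injective _ hRi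
    have e3 : (L '' Y).ncard = Y.ncard := Set.ncard_image_of_injective _ hLi
    have d1 : Disjoint (R '' X) (L '' Y) := by
      rw [Set.disjoint_left]
      rintro _ ⟨g, hg, rfl⟩ ⟨g', hg', he⟩
      have := congrArg U he
      rw [hR, hL] at this
      have h2 := hg.2
      have h3 := hg'.2
      omega
    have d2 : Disjoint (R '' X ∪ L '' Y) mid := by
      rw [Set.disjoint_left]
      rintro g (⟨g', hg', rfl⟩ | ⟨g', hg', rfl⟩) hm
      · have h2 := hm.2
        have h3 := hg'.2
        rw [hR] at h2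
        omega
      · have h2 := hm.1
        have h3 := hg'.2
        rw [hL] at h2
        omega
    have hsub : R '' X ∪ L '' Y ∪ mid ⊆ Ball S (k + 1) := by
      rintro g ((⟨g', hg', rfl⟩ | ⟨g', hg', rfl⟩) | hm)
      · obtain ⟨s, hs, he⟩ := hRS g'
        rw [he]
        exact Ball.mul hg'.1 hs
      · obtain ⟨s, hs, he⟩ := hLS g'
        rw [he]
        exact Ball.mul hg'.1 hs
      · exact Ball.mono S (by omega) (hk0 hm)
    have := Set.ncard_le_ncard hsub (hBf (k + 1))
    rw [Set.ncard_union_eq d2 ((hXf.image _).union (hYf.image _)) hmidf,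
      Set.ncard_union_eq d1 (hXf.image _) (hYf.image _), e2, e3] at this
    rw [e1, beta]
    omega
  -- upper bound
  set N : ℕ → ℕ := fun k => {g | -(V * k) ≤ U g ∧ U g ≤ V * k}.ncard with hN
  have hup : ∀ k, N k ≤ N 0 + D * k := by
    intro k
    induction k with
    | zero => simp
    | succ k ih =>
      have hstep : N (k + 1) ≤ N k + D := by
        set X : Set Γ := {g | V ≤ U g ∧ U g ≤ V * (k + 1 : ℕ)} with hX
        set Y : Set Γ := {g | -(V * (k + 1 : ℕ)) ≤ U g ∧ U g < -V} with hY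
        have hXf : X.Finite := hI' V (V * (k + 1 : ℕ)) _ (fun g hg => hg)
        have hYf : Y.Finite := hI' (-(V * (k + 1 : ℕ))) (-V) _ (fun g hg => ⟨hg.1, hg.2.le⟩)
        have hsub : {g | -(V * (k + 1 : ℕ)) ≤ U g ∧ U g ≤ V * (k + 1 : ℕ)} ⊆ X ∪ Y ∪ mid := by
          intro g hg
          simp only [hX, hY, hmid, Set.mem_union, Set.mem_ofPred_eq]
          rcases lt_or_ge (U g) (-V) with h2 | h2
          · exact Or.inl (Or.inr ⟨hg.1, h2⟩)
          · rcases lt_or_ge (U g) V with h3 | h3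
            · exact Or.inr ⟨h2, h3⟩
            · exact Or.inl (Or.inl ⟨h3, hg.2⟩)
        have h2 := Set.ncard_le_ncard hsub ((hXf.union hYf).union hmidf)
        have h3 := Set.ncard_union_le (X ∪ Y) mid
        have h4 := Set.ncard_union_le X Y
        have e2 : (L '' X).ncard = X.ncard := Set.ncard_image_of_injective _ hLi
        have e3 : (R '' Y).ncard = Y.ncard := Set.ncard_image_of_injective _ hRi
        have d1 : Disjoint (L '' X) (R '' Y) := by
          rw [Set.disjoint_left]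
          rintro _ ⟨g, hg, rfl⟩ ⟨g', hg', he⟩
          have := congrArg U he
          rw [hR, hL] at this
          have h2 := hg.1
          have h3 := hg'.2
          omega
        have hsub2 : L '' X ∪ R '' Y ⊆ {g | -(V * k) ≤ U g ∧ U g ≤ V * k} := by
          rintro g (⟨g', hg', rfl⟩ | ⟨g', hg', rfl⟩)
          · have h5 := hg'.1
            have h6 := hg'.2
            simp only [Set.mem_ofPred_eq]
            rw [hL]
            push_cast at h6
            have : 0 ≤ V * (k : ℤ) := by positivity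
            constructor
            · linarith
            · nlinarith
          · have h5 := hg'.1
            have h6 := hg'.2
            simp only [Set.mem_ofPred_eq]
            rw [hR]
            push_cast at h5
            have : 0 ≤ V * (k : ℤ) := by positivity
            constructor
            · nlinarith
            · linarith
        have h5 := Set.ncard_le_ncard hsub2 (hI _ _)
        rw [Set.ncard_union_eq d1 (hXf.image _) (hYf.image _), e2, e3] at h5
        show {g | -(V * ((k + 1 : ℕ) : ℤ)) ≤ U g ∧ U g ≤ V * ((k + 1 : ℕ) : ℤ)}.ncard ≤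
          {g | -(V * (k : ℤ)) ≤ U g ∧ U g ≤ V * (k : ℤ)}.ncard + D
        omega
      calc N (k + 1) ≤ N k + D := hstep
        _ ≤ N 0 + D * k + D := by omega
        _ = N 0 + D * (k + 1) := by ring
  have hle : ∀ k, beta S k ≤ N 0 + D * k := by
    intro k
    exact (Set.ncard_le_ncard (fun g hg => hB k g hg) (hI _ _)).trans (hup k)
  -- conclusion
  obtain ⟨k1, hk1, hc⟩ := ev_const (fun k => N 0 + D * k - beta S k) k0 (by
    intro k hk
    have h2 := hlow k hk
    have h3 := hle k
    have h4 := hle (k + 1)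
    have h5 : D * (k + 1) = D * k + D := by ring
    show N 0 + D * (k + 1) - beta S (k + 1) ≤ N 0 + D * k - beta S k
    omega)
  refine ⟨D, (N 0 : ℤ) - (N 0 + D * k1 - beta S k1 : ℕ), k1, ?_, ?_⟩
  · rw [hD, Set.ncard_pos hmidf]
    exact ⟨1, by rw [hmid]; constructor <;> simp only [h1] <;> omega⟩
  · intro k hk
    have h2 := hc k hk
    have h3 := hle k
    rw [← h2]
    push_cast [Nat.cast_sub h3]
    ring

end Pool.Agent.N600.LG
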