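import Pool.Agent.N600.LG.Final

/-!
# The triangle rotation group (3,3,3)
-/

set_option autoImplicit false

namespace Pool.Agent.N600.LG

/-- the first coordinate of the cyclic shift, applied `i` times, of `(a, b, -a-b)` -/
def ra : Fin 3 → ℤ → ℤ → ℤ
  | 0, a, _ => a
  | 1, a, b => -a - b
  | 2, _, b => b

/-- the second coordinate of the cyclic shift, applied `i` times, of `(a, b, -a-b)` -/
def rb : Fin 3 → ℤ → ℤ → ℤ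
  | 0, _, b => b
  | 1, a, _ => a
  | 2, a, b => -a - b

/-- the isometry `v ↦ ρ^i v + (a, b, -a-b)` of the lattice `{v ∈ ℤ³ : v₁ + v₂ + v₃ = 0}`, where `ρ` is
the rotation `(x, y, z) ↦ (z, x, y)` of order three -/
@[ext] structure P3 where
  i : Fin 3
  a : ℤ
  b : ℤ

instance : Mul P3 := ⟨fun g h => ⟨g.i + h.i, g.a + ra g.i h.a h.b, g.b + rb g.i h.a h.b⟩⟩
instance : One P3 := ⟨⟨0, 0, 0⟩⟩
instance : Inv P3 := ⟨fun g => ⟨-g.i, -ra (-g.i) g.a g.b, -rb (-g.i) g.a g.b⟩⟩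

theorem P3.mul_def (g h : P3) :
    g * h = ⟨g.i + h.i, g.a + ra g.i h.a h.b, g.b + rb g.i h.a h.b⟩ := rfl
theorem P3.one_def : (1 : P3) = ⟨0, 0, 0⟩ := rfl
theorem P3.inv_def (g : P3) : g⁻¹ = ⟨-g.i, -ra (-g.i) g.a g.b, -rb (-g.i) g.a g.b⟩ := rfl

instance : Group P3 := Group.ofLeftAxioms
  (by
    rintro ⟨i, a, b⟩ ⟨j, c, d⟩ ⟨k, e, f⟩
    simp only [P3.mul_def, P3.mk.injEq]
    refine ⟨add_assoc _ _ _, ?_, ?_⟩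
    · fin_cases i <;> fin_cases j <;> simp [ra, rb] <;> ring
    · fin_cases i <;> fin_cases j <;> simp [ra, rb] <;> ring)
  (by
    rintro ⟨i, a, b⟩
    simp [P3.mul_def, P3.one_def, ra, rb])
  (by
    rintro ⟨i, a, b⟩
    simp only [P3.mul_def, P3.one_def, P3.inv_def, P3.mk.injEq]
    refine ⟨by simp, ?_, ?_⟩ <;> fin_cases i <;> simp [ra, rb])

/-- rotation about the origin -/
def rr : P3 := ⟨1, 0, 0⟩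
/-- rotation about another centre -/
def ss : P3 := ⟨1, 1, -1⟩

theorem rr_inv : rr⁻¹ = ⟨2, 0, 0⟩ := by
  rw [P3.inv_def]
  rfl
theorem ss_inv : ss⁻¹ = ⟨2, 1, 0⟩ := by
  rw [P3.inv_def]
  rfl

/-- odd radius `2 j + 1` -/
def Dodd (j : ℤ) : Fin 3 → ℤ → ℤ → Prop
  | 0, a, b => -j ≤ a ∧ a ≤ j ∧ -j ≤ b ∧ b ≤ j ∧ -j ≤ a + b ∧ a + b ≤ j
  | 1, a, b => -j ≤ a ∧ a ≤ j + 1 ∧ -(j + 1) ≤ b ∧ b ≤ j ∧ -j ≤ a + b ∧ a + b ≤ j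
  | 2, a, b => -j ≤ a ∧ a ≤ j + 1 ∧ -j ≤ b ∧ b ≤ j ∧ -j ≤ a + b ∧ a + b ≤ j + 1

/-- even radius `2 j` -/
def Deven (j : ℤ) : Fin 3 → ℤ → ℤ → Prop
  | 0, a, b => (-j ≤ a ∧ a ≤ j ∧ -j ≤ b ∧ b ≤ j ∧ -j ≤ a + b ∧ a + b ≤ j) ∧
      ¬ (a = 0 ∧ b = j) ∧ ¬ (a = 0 ∧ b = -j)
  | 1, a, b => -(j - 1) ≤ a ∧ a ≤ j ∧ -j ≤ b ∧ b ≤ j - 1 ∧ -j ≤ a + b ∧ a + b ≤ j
  | 2, a, b => -(j - 1) ≤ a ∧ a ≤ j ∧ -j ≤ b ∧ b ≤ j ∧ -(j - 1) ≤ a + b ∧ a + b ≤ j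

end Pool.Agent.N600.LG
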