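import Pool.Agent.N600.LG.P3

/-!
# The balls of the triangle rotation group (3,3,3)
-/

set_option autoImplicit false

namespace Pool.Agent.N600.LG

theorem Ball.succ_iff {Γ : Type} [Group Γ] (S : Set Γ) (k : ℕ) (g : Γ) :
    g ∈ Ball S (k + 1) ↔ g ∈ Ball S k ∨ ∃ s, (s ∈ S ∨ s⁻¹ ∈ S) ∧ g * s ∈ Ball S k := by
  constructor
  · rintro ⟨l, hl, h1, rfl⟩
    rcases List.eq_nil_or_concat l with rfl | ⟨l', a, rfl⟩
    · exact Or.inl ⟨[], by simp, by simp, rfl⟩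
    · right
      refine ⟨a⁻¹, ?_, ?_⟩
      · rw [inv_inv]
        exact (h1 a (by simp)).symm
      · refine ⟨l', ?_, fun s hs => h1 s (by simp [hs]), by simp⟩
        simp only [List.concat_eq_append, List.length_append, List.length_singleton] at hl
        omega
  · rintro (h | ⟨s, hs, h⟩)
    · exact Ball.mono S (Nat.le_succ k) h
    · have := Ball.mul (s := s⁻¹) h (by rw [inv_inv]; exact hs.symm)
      simpa using this

theorem Ball.zero_iff {Γ : Type} [Group Γ] (S : Set Γ) (g : Γ) : g ∈ Ball S 0 ↔ g = 1 := by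
  constructor
  · rintro ⟨l, hl, -, rfl⟩
    rw [List.length_eq_zero_iff.1 (Nat.le_zero.1 hl), List.prod_nil]
  · rintro rfl
    exact ⟨[], by simp, by simp, rfl⟩

theorem step (k : ℕ) (i : Fin 3) (a b : ℤ) :
    (⟨i, a, b⟩ : P3) ∈ Ball {rr, ss} (k + 1) ↔ (⟨i, a, b⟩ : P3) ∈ Ball {rr, ss} k ∨
      (⟨i + 1, a, b⟩ : P3) ∈ Ball {rr, ss} k ∨
      (⟨i + 1, a + ra i 1 (-1), b + rb i 1 (-1)⟩ : P3) ∈ Ball {rr, ss} k ∨
      (⟨i + 2, a, b⟩ : P3) ∈ Ball {rr, ss} k ∨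
      (⟨i + 2, a + ra i 1 0, b + rb i 1 0⟩ : P3) ∈ Ball {rr, ss} k := by
  have e1 : (⟨i, a, b⟩ : P3) * rr = ⟨i + 1, a, b⟩ := by
    rw [rr, P3.mul_def]
    fin_cases i <;> simp [ra, rb]
  have e2 : (⟨i, a, b⟩ : P3) * ss = ⟨i + 1, a + ra i 1 (-1), b + rb i 1 (-1)⟩ := rfl
  have e3 : (⟨i, a, b⟩ : P3) * rr⁻¹ = ⟨i + 2, a, b⟩ := by
    rw [rr_inv, P3.mul_def]
    fin_cases i <;> simp [ra, rb]
  have e4 : (⟨i, a, b⟩ : P3) * ss⁻¹ = ⟨i + 2, a + ra i 1 0, b + rb i 1 0⟩ := by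
    rw [ss_inv]
    rfl
  rw [Ball.succ_iff, ← e1, ← e2, ← e3, ← e4]
  constructor
  · rintro (h | ⟨s, hs, h⟩)
    · exact Or.inl h
    · rcases hs with (rfl | rfl) | hs
      · exact Or.inr (Or.inl h)
      · exact Or.inr (Or.inr (Or.inl h))
      · rcases hs with hs | hs
        · have : s = rr⁻¹ := by rw [← hs, inv_inv]
          subst this
          exact Or.inr (Or.inr (Or.inr (Or.inl h)))
        · have : s = ss⁻¹ := by rw [← Set.mem_singleton_iff.1 hs, inv_inv]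
          subst this
          exact Or.inr (Or.inr (Or.inr (Or.inr h)))
  · rintro (h | h | h | h | h)
    · exact Or.inl h
    · exact Or.inr ⟨rr, by simp, h⟩
    · exact Or.inr ⟨ss, by simp, h⟩
    · exact Or.inr ⟨rr⁻¹, by simp, h⟩
    · exact Or.inr ⟨ss⁻¹, by simp, h⟩

theorem ball_one (i : Fin 3) (a b : ℤ) : (⟨i, a, b⟩ : P3) ∈ Ball {rr, ss} 1 ↔ Dodd 0 i a b := by
  rw [show (1 : ℕ) = 0 + 1 from rfl, step]
  simp only [Ball.zero_iff, P3.one_def, P3.mk.injEq]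
  fin_cases i <;> simp [ra, rb, Dodd] <;> omega

theorem odd_even (j : ℕ) (h : ∀ i a b, (⟨i, a, b⟩ : P3) ∈ Ball {rr, ss} (2 * j + 1) ↔ Dodd j i a b)
    (i : Fin 3) (a b : ℤ) :
    (⟨i, a, b⟩ : P3) ∈ Ball {rr, ss} (2 * j + 2) ↔ Deven (j + 1) i a b := by
  rw [show 2 * j + 2 = (2 * j + 1) + 1 from rfl, step]
  simp only [h]
  fin_cases i <;> simp [ra, rb, Dodd, Deven] <;> omega

theorem even_odd (j : ℕ)
    (h : ∀ i a b, (⟨i, a, b⟩ : P3) ∈ Ball {rr, ss} (2 * j + 2) ↔ Deven (j + 1) i a b)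
    (i : Fin 3) (a b : ℤ) :
    (⟨i, a, b⟩ : P3) ∈ Ball {rr, ss} (2 * j + 3) ↔ Dodd (j + 1) i a b := by
  rw [show 2 * j + 3 = (2 * j + 2) + 1 from rfl, step]
  simp only [h]
  fin_cases i <;> simp [ra, rb, Dodd, Deven] <;> omega

theorem ball_odd (j : ℕ) :
    ∀ i a b, (⟨i, a, b⟩ : P3) ∈ Ball {rr, ss} (2 * j + 1) ↔ Dodd j i a b := by
  induction j with
  | zero => exact ball_one
  | succ j ih =>
    intro i a b
    have := even_odd j (odd_even j ih) i a b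
    rw [show 2 * (j + 1) + 1 = 2 * j + 3 from by ring]
    simpa using this

theorem ball_even (j : ℕ) :
    ∀ i a b, (⟨i, a, b⟩ : P3) ∈ Ball {rr, ss} (2 * j + 2) ↔ Deven (j + 1) i a b :=
  odd_even j (ball_odd j)

end Pool.Agent.N600.LG
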