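import Pool.Agent.N600.LG.P4

/-!
# The growth of the triangle rotation group (3,3,3)
-/

set_option autoImplicit false

open Filter Topology

namespace Pool.Agent.N600.LG

theorem sum_abs (m : ℤ) (j : ℕ) :
    ∑ t ∈ Finset.Icc (-(j : ℤ)) j, (m - |t|) = (2 * j + 1) * m - j * (j + 1) := by
  induction j with
  | zero => simp
  | succ j ih =>
    have e : Finset.Icc (-((j + 1 : ℕ) : ℤ)) ((j + 1 : ℕ) : ℤ) =
        insert (-((j : ℤ) + 1)) (insert ((j : ℤ) + 1) (Finset.Icc (-(j : ℤ)) j)) := by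
      ext t
      simp only [Finset.mem_insert, Finset.mem_Icc]
      push_cast
      omega
    rw [e, Finset.sum_insert, Finset.sum_insert, ih]
    · rw [abs_neg, abs_of_nonneg (by positivity)]
      push_cast
      ring
    · simp only [Finset.mem_Icc]
      omega
    · simp only [Finset.mem_insert, Finset.mem_Icc]
      omega

/-- the number of points of a region of the lattice all of whose rows are intervals of length
`m - |t|`, `|t| ≤ j` -/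
theorem part_card (i : Fin 3) (Q : ℤ → ℤ → Prop) (j : ℕ) (m : ℤ) (F : ℤ × ℤ → P3)
    (hF : Function.Injective F) (lo hi : ℤ → ℤ)
    (hlh : ∀ t : ℤ, -(j : ℤ) ≤ t → t ≤ j → hi t + 1 - lo t = m - |t|) (hjm : (j : ℤ) ≤ m)
    (hQ : ∀ g : P3, (g.i = i ∧ Q g.a g.b) ↔
      ∃ t x, F (t, x) = g ∧ -(j : ℤ) ≤ t ∧ t ≤ j ∧ lo t ≤ x ∧ x ≤ hi t) :
    ({g : P3 | g.i = i ∧ Q g.a g.b}.ncard : ℤ) = (2 * j + 1) * m - j * (j + 1) ∧
    {g : P3 | g.i = i ∧ Q g.a g.b}.Finite := by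
  classical
  let T : Finset (Σ _ : ℤ, ℤ) :=
    (Finset.Icc (-(j : ℤ)) j).sigma (fun t => Finset.Icc (lo t) (hi t))
  let G : (Σ _ : ℤ, ℤ) → P3 := fun p => F (p.1, p.2)
  have hG : Function.Injective G := by
    rintro ⟨a, b⟩ ⟨c, d⟩ h
    have := hF h
    simp only [Prod.mk.injEq] at this
    obtain ⟨rfl, rfl⟩ := this
    rfl
  have e : {g : P3 | g.i = i ∧ Q g.a g.b} = G '' (T : Set (Σ _ : ℤ, ℤ)) := by
    ext g
    rw [Set.mem_ofPred_eq, hQ]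
    constructor
    · rintro ⟨t, x, h, h1, h2, h3, h4⟩
      refine ⟨⟨t, x⟩, ?_, h⟩
      simp only [T, Finset.mem_coe, Finset.mem_sigma, Finset.mem_Icc]
      exact ⟨⟨h1, h2⟩, h3, h4⟩
    · rintro ⟨⟨t, x⟩, h, rfl⟩
      simp only [T, Finset.mem_coe, Finset.mem_sigma, Finset.mem_Icc] at h
      exact ⟨t, x, rfl, h.1.1, h.1.2, h.2.1, h.2.2⟩
  rw [e]
  refine ⟨?_, (Finset.finite_toSet T).image G⟩
  rw [Set.ncard_image_of_injective _ hG, Set.ncard_coe_finset, Finset.card_sigma, Nat.cast_sum,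
    ← sum_abs]
  refine Finset.sum_congr rfl fun t ht => ?_
  rw [Finset.mem_Icc] at ht
  rw [Int.card_Icc, Int.toNat_of_nonneg]
  · exact hlh t ht.1 ht.2
  · rw [hlh t ht.1 ht.2]
    have : |t| ≤ j := abs_le.2 ht
    linarith

theorem F0_inj (i : Fin 3) : Function.Injective (fun p : ℤ × ℤ => (⟨i, p.1, p.2⟩ : P3)) := by
  rintro ⟨a, b⟩ ⟨c, d⟩ h
  simp only [P3.mk.injEq, true_and] at h
  rw [h.1, h.2]

theorem F1_inj (i : Fin 3) :
    Function.Injective (fun p : ℤ × ℤ => (⟨i, p.2, p.1 - p.2⟩ : P3)) := by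
  rintro ⟨a, b⟩ ⟨c, d⟩ h
  simp only [P3.mk.injEq, true_and] at h
  obtain ⟨rfl, h⟩ := h
  simp only [Prod.mk.injEq, and_true]
  linarith

theorem F2_inj (i : Fin 3) : Function.Injective (fun p : ℤ × ℤ => (⟨i, p.2, p.1⟩ : P3)) := by
  rintro ⟨a, b⟩ ⟨c, d⟩ h
  simp only [P3.mk.injEq, true_and] at h
  rw [h.1, h.2]

/-- the hexagon of radius `j` -/
theorem hex_card (i : Fin 3) (j : ℕ) :
    ({g : P3 | g.i = i ∧ Dodd j 0 g.a g.b}.ncard : ℤ) = 3 * j ^ 2 + 3 * j + 1 ∧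
    {g : P3 | g.i = i ∧ Dodd j 0 g.a g.b}.Finite := by
  have := part_card i (Dodd j 0) j (2 * j + 1) _ (F0_inj i)
    (fun t => max (-j) (-j - t)) (fun t => min j (j - t))
    (by intro t h1 h2; rcases abs_cases t with ⟨h, _⟩ | ⟨h, _⟩ <;> rw [h] <;> omega) (by omega)
    (by
      rintro ⟨i', a, b⟩
      simp only [Dodd, P3.mk.injEq]
      constructor
      · rintro ⟨rfl, h⟩
        exact ⟨a, b, ⟨rfl, rfl, rfl⟩, by omega, by omega, by omega, by omega⟩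
      · rintro ⟨t, x, ⟨rfl, rfl, rfl⟩, h1, h2, h3, h4⟩
        refine ⟨rfl, ?_⟩
        omega)
  refine ⟨?_, this.2⟩
  rw [this.1]
  ring

theorem odd_one (j : ℕ) :
    ({g : P3 | g.i = 1 ∧ Dodd j 1 g.a g.b}.ncard : ℤ) = (2 * j + 1) * (2 * j + 2) - j * (j + 1) ∧
    {g : P3 | g.i = 1 ∧ Dodd j 1 g.a g.b}.Finite :=
  part_card 1 (Dodd j 1) j (2 * j + 2) _ (F1_inj 1)
    (fun t => max (-j) (t - j)) (fun t => min (j + 1) (t + j + 1))
    (by intro t h1 h2; rcases abs_cases t with ⟨h, _⟩ | ⟨h, _⟩ <;> rw [h] <;> omega) (by omega)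
    (by
      rintro ⟨i', a, b⟩
      simp only [Dodd, P3.mk.injEq]
      constructor
      · rintro ⟨rfl, h⟩
        exact ⟨a + b, a, ⟨rfl, rfl, by ring⟩, by omega, by omega, by omega, by omega⟩
      · rintro ⟨t, x, ⟨rfl, rfl, rfl⟩, h1, h2, h3, h4⟩
        refine ⟨rfl, ?_⟩
        omega)

theorem odd_two (j : ℕ) :
    ({g : P3 | g.i = 2 ∧ Dodd j 2 g.a g.b}.ncard : ℤ) = (2 * j + 1) * (2 * j + 2) - j * (j + 1) ∧
    {g : P3 | g.i = 2 ∧ Dodd j 2 g.a g.b}.Finite :=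
  part_card 2 (Dodd j 2) j (2 * j + 2) _ (F2_inj 2)
    (fun t => max (-j) (-j - t)) (fun t => min (j + 1) (j + 1 - t))
    (by intro t h1 h2; rcases abs_cases t with ⟨h, _⟩ | ⟨h, _⟩ <;> rw [h] <;> omega) (by omega)
    (by
      rintro ⟨i', a, b⟩
      simp only [Dodd, P3.mk.injEq]
      constructor
      · rintro ⟨rfl, h⟩
        exact ⟨b, a, ⟨rfl, rfl, rfl⟩, by omega, by omega, by omega, by omega⟩
      · rintro ⟨t, x, ⟨rfl, rfl, rfl⟩, h1, h2, h3, h4⟩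
        refine ⟨rfl, ?_⟩
        omega)

theorem even_one (j : ℕ) :
    ({g : P3 | g.i = 1 ∧ Deven (j + 1) 1 g.a g.b}.ncard : ℤ) =
      (2 * ((j + 1 : ℕ) : ℤ) + 1) * (2 * (j + 1)) - ((j + 1 : ℕ) : ℤ) * (((j + 1 : ℕ) : ℤ) + 1) ∧
    {g : P3 | g.i = 1 ∧ Deven (j + 1) 1 g.a g.b}.Finite :=
  part_card 1 (Deven (j + 1) 1) (j + 1) (2 * (j + 1)) _ (F1_inj 1)
    (fun t => max (-j) (t - j)) (fun t => min (j + 1) (t + (j + 1)))
    (by intro t h1 h2; rcases abs_cases t with ⟨h, _⟩ | ⟨h, _⟩ <;> rw [h] <;> omega) (by omega)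
    (by
      rintro ⟨i', a, b⟩
      simp only [Deven, P3.mk.injEq]
      constructor
      · rintro ⟨rfl, h⟩
        exact ⟨a + b, a, ⟨rfl, rfl, by ring⟩, by omega, by omega, by omega, by omega⟩
      · rintro ⟨t, x, ⟨rfl, rfl, rfl⟩, h1, h2, h3, h4⟩
        refine ⟨rfl, ?_⟩
        omega)

theorem even_two (j : ℕ) :
    ({g : P3 | g.i = 2 ∧ Deven (j + 1) 2 g.a g.b}.ncard : ℤ) =
      (2 * ((j + 1 : ℕ) : ℤ) + 1) * (2 * (j + 1)) - ((j + 1 : ℕ) : ℤ) * (((j + 1 : ℕ) : ℤ) + 1) ∧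
    {g : P3 | g.i = 2 ∧ Deven (j + 1) 2 g.a g.b}.Finite :=
  part_card 2 (Deven (j + 1) 2) (j + 1) (2 * (j + 1)) _ (F2_inj 2)
    (fun t => max (-j) (-j - t)) (fun t => min (j + 1) (j + 1 - t))
    (by intro t h1 h2; rcases abs_cases t with ⟨h, _⟩ | ⟨h, _⟩ <;> rw [h] <;> omega) (by omega)
    (by
      rintro ⟨i', a, b⟩
      simp only [Deven, P3.mk.injEq]
      constructor
      · rintro ⟨rfl, h⟩
        exact ⟨b, a, ⟨rfl, rfl, rfl⟩, by omega, by omega, by omega, by omega⟩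
      · rintro ⟨t, x, ⟨rfl, rfl, rfl⟩, h1, h2, h3, h4⟩
        refine ⟨rfl, ?_⟩
        omega)

theorem even_zero (j : ℕ) :
    ({g : P3 | g.i = 0 ∧ Deven (j + 1) 0 g.a g.b}.ncard : ℤ) =
      3 * (j + 1) ^ 2 + 3 * (j + 1) + 1 - 2 ∧
    {g : P3 | g.i = 0 ∧ Deven (j + 1) 0 g.a g.b}.Finite := by
  have h := hex_card 0 (j + 1)
  have e : {g : P3 | g.i = 0 ∧ Deven (j + 1) 0 g.a g.b} =
      {g : P3 | g.i = 0 ∧ Dodd ((j + 1 : ℕ) : ℤ) 0 g.a g.b} \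
        {(⟨0, 0, j + 1⟩ : P3), (⟨0, 0, -(j + 1)⟩ : P3)} := by
    ext ⟨i, a, b⟩
    simp only [Set.mem_ofPred_eq, Set.mem_sdiff, Set.mem_insert_iff, Set.mem_singleton_iff, Deven,
      Dodd, P3.mk.injEq]
    push_cast
    tauto
  have hsub : ({(⟨0, 0, j + 1⟩ : P3), (⟨0, 0, -(j + 1)⟩ : P3)} : Set P3) ⊆
      {g : P3 | g.i = 0 ∧ Dodd ((j + 1 : ℕ) : ℤ) 0 g.a g.b} := by
    rintro g (rfl | rfl) <;> simp only [Set.mem_ofPred_eq, Dodd] <;> push_cast <;>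
      refine ⟨trivial, ?_⟩ <;> omega
  have hc : ({(⟨0, 0, j + 1⟩ : P3), (⟨0, 0, -(j + 1)⟩ : P3)} : Set P3).ncard = 2 := by
    rw [Set.ncard_pair]
    intro h
    simp only [P3.mk.injEq, true_and] at h
    omega
  constructor
  · rw [e]
    have := Set.ncard_sdiff_add_ncard_of_subset hsub h.2
    rw [hc] at this
    have h1 := h.1
    push_cast at h1
    have h2 : ((({g : P3 | g.i = 0 ∧ Dodd ((j + 1 : ℕ) : ℤ) 0 g.a g.b} \
        {(⟨0, 0, j + 1⟩ : P3), (⟨0, 0, -(j + 1)⟩ : P3)}).ncard + 2 : ℕ) : ℤ) =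
        ({g : P3 | g.i = 0 ∧ Dodd ((j + 1 : ℕ) : ℤ) 0 g.a g.b}.ncard : ℤ) := by rw [this]
    push_cast at h2 ⊢
    linarith
  · rw [e]
    exact h.2.subset Set.diff_subset

theorem three_parts (D : Fin 3 → ℤ → ℤ → Prop) (n0 n1 n2 : ℤ) (B : Set P3)
    (hB : ∀ i a b, (⟨i, a, b⟩ : P3) ∈ B ↔ D i a b)
    (h0 : ({g : P3 | g.i = 0 ∧ D 0 g.a g.b}.ncard : ℤ) = n0 ∧
      {g : P3 | g.i = 0 ∧ D 0 g.a g.b}.Finite)
    (h1 : ({g : P3 | g.i = 1 ∧ D 1 g.a g.b}.ncard : ℤ) = n1 ∧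
      {g : P3 | g.i = 1 ∧ D 1 g.a g.b}.Finite)
    (h2 : ({g : P3 | g.i = 2 ∧ D 2 g.a g.b}.ncard : ℤ) = n2 ∧
      {g : P3 | g.i = 2 ∧ D 2 g.a g.b}.Finite) : (B.ncard : ℤ) = n0 + n1 + n2 := by
  have e : B = ({g : P3 | g.i = 0 ∧ D 0 g.a g.b} ∪ {g : P3 | g.i = 1 ∧ D 1 g.a g.b}) ∪
      {g : P3 | g.i = 2 ∧ D 2 g.a g.b} := by
    ext ⟨i, a, b⟩
    rw [hB]
    simp only [Set.mem_union, Set.mem_ofPred_eq]
    fin_cases i <;> simp
  rw [e, Set.ncard_union_eq _ (h0.2.union h1.2) h2.2, Set.ncard_union_eq _ h0.2 h1.2]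
  · push_cast
    rw [h0.1, h1.1, h2.1]
  · rw [Set.disjoint_left]
    rintro g ⟨h, -⟩ ⟨h', -⟩
    rw [h] at h'
    exact absurd h' (by decide)
  · rw [Set.disjoint_left]
    rintro g (⟨h, -⟩ | ⟨h, -⟩) ⟨h', -⟩ <;>
    · rw [h] at h'
      exact absurd h' (by decide)

theorem beta_odd (j : ℕ) : (beta ({rr, ss} : Set P3) (2 * j + 1) : ℤ) = 9 * j ^ 2 + 13 * j + 5 := by
  rw [beta, three_parts (Dodd j) _ _ _ _ (ball_odd j) (hex_card 0 j) (odd_one j) (odd_two j)]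
  ring

theorem beta_even (j : ℕ) :
    (beta ({rr, ss} : Set P3) (2 * j + 2) : ℤ) = 9 * (j + 1) ^ 2 + 5 * (j + 1) - 1 := by
  rw [beta, three_parts (Deven (j + 1)) _ _ _ _ (ball_even j) (even_zero j) (even_one j)
    (even_two j)]
  push_cast
  ring

end Pool.Agent.N600.LG
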