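import Pool.Agent.N600.LG.P5

/-!
# Two generating sets of the triangle rotation group (3,3,3)
-/

set_option autoImplicit false

open Filter Topology

namespace Pool.Agent.N600.LG

theorem Ball.subset_closure {Γ : Type} [Group Γ] (S : Set Γ) (k : ℕ) {g : Γ} (h : g ∈ Ball S k) :
    g ∈ Subgroup.closure S := by
  obtain ⟨l, -, h1, rfl⟩ := h
  refine list_prod_mem fun s hs => ?_
  rcases h1 s hs with h | h
  · exact Subgroup.subset_closure h
  · simpa using inv_mem (Subgroup.subset_closure h)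

theorem closure_rs : Subgroup.closure ({rr, ss} : Set P3) = ⊤ := by
  rw [eq_top_iff]
  rintro ⟨i, a, b⟩ -
  refine Ball.subset_closure _ (2 * (a.natAbs + b.natAbs + 1) + 1) ?_
  rw [ball_odd]
  fin_cases i <;> simp only [Dodd, Fin.zero_eta, Fin.mk_one, Fin.reduceFinMk] <;> omega

/-- the translations -/
def Tr3 : Subgroup P3 where
  carrier := {g | g.i = 0}
  mul_mem' := by
    rintro ⟨i, a, b⟩ ⟨j, c, d⟩ (rfl : i = 0) (rfl : j = 0)
    rfl
  one_mem' := rfl
  inv_mem' := by
    rintro ⟨i, a, b⟩ (rfl : i = 0)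
    change (-0 : Fin 3) = 0
    rfl

theorem Tr3_comm (x y : P3) (hx : x ∈ Tr3) (hy : y ∈ Tr3) : x * y = y * x := by
  obtain ⟨i, a, b⟩ := x
  obtain ⟨j, c, d⟩ := y
  obtain rfl : i = 0 := hx
  obtain rfl : j = 0 := hy
  simp [P3.mul_def, ra, rb, add_comm]

/-- the rotation part -/
def rot : P3 →* Multiplicative (Fin 3) where
  toFun g := Multiplicative.ofAdd g.i
  map_one' := rfl
  map_mul' _ _ := rfl

theorem Tr3_fin : Tr3.FiniteIndex := by
  have : Tr3 = rot.ker := by
    ext g
    rw [MonoidHom.mem_ker]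
    exact Iff.rfl
  rw [this]
  infer_instance

/-- the second generating set: all elements whose translation part lies in the hexagon of radius
one -/
def hx : Set P3 := {g | Dodd 1 0 g.a g.b}

theorem hx_symm (s : P3) (h : s⁻¹ ∈ hx) : s ∈ hx := by
  obtain ⟨i, a, b⟩ := s
  rw [P3.inv_def] at h
  simp only [hx, Set.mem_ofPred_eq] at h ⊢
  fin_cases i
  · have e : -(0 : Fin 3) = 0 := rfl
    simp only [Fin.zero_eta, e, ra, rb, Dodd] at h ⊢
    omega
  · have e : -(1 : Fin 3) = 2 := rfl
    simp only [Fin.mk_one, e, ra, rb, Dodd] at h ⊢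
    omega
  · have e : -(2 : Fin 3) = 1 := rfl
    simp only [Fin.reduceFinMk, e, ra, rb, Dodd] at h ⊢
    omega

theorem hex_step (k : ℤ) (hk : 1 ≤ k) (a b : ℤ) (h : Dodd (k + 1) 0 a b) :
    ∃ x y : ℤ, Dodd 1 0 x y ∧ Dodd k 0 (a + x) (b + y) := by
  by_contra hc
  push Not at hc
  have h0 := hc 0 0 (by simp [Dodd])
  have h1 := hc 1 0 (by simp [Dodd])
  have h2 := hc (-1) 0 (by simp [Dodd])
  have h3 := hc 0 1 (by simp [Dodd])
  have h4 := hc 0 (-1) (by simp [Dodd])
  have h5 := hc 1 (-1) (by simp [Dodd])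
  have h6 := hc (-1) 1 (by simp [Dodd])
  simp only [Dodd] at *
  omega

theorem ball_hx (k : ℕ) (g : P3) : g ∈ Ball hx (k + 1) ↔ Dodd (k + 1) 0 g.a g.b := by
  induction k generalizing g with
  | zero =>
    rw [Ball.succ_iff]
    simp only [Ball.zero_iff]
    constructor
    · rintro (rfl | ⟨s, hs, h⟩)
      · simp [P3.one_def, Dodd]
      · have hs' : s⁻¹ ∈ hx := by
          rcases hs with hs | hs
          · exact hx_symm _ (by rwa [inv_inv])
          · exact hs
        rw [← eq_inv_iff_mul_eq_one] at h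
        rw [h]
        simpa [hx] using hs'
    · intro h
      exact Or.inr ⟨g⁻¹, Or.inr (by rw [inv_inv]; simpa [hx] using h), by simp⟩
  | succ k ih =>
    rw [Ball.succ_iff]
    simp only [ih]
    push_cast
    obtain ⟨i, a, b⟩ := g
    constructor
    · rintro (h | ⟨s, hs, h⟩)
      · simp only [Dodd] at h ⊢
        omega
      · have hs' : s ∈ hx := by
          rcases hs with hs | hs
          · exact hs
          · exact hx_symm _ hs
        obtain ⟨j, c, d⟩ := s
        rw [P3.mul_def] at h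
        simp only [hx, Set.mem_ofPred_eq] at h hs' ⊢
        fin_cases i <;>
          simp only [Fin.zero_eta, Fin.mk_one, Fin.reduceFinMk, ra, rb, Dodd] at h hs' ⊢ <;> omega
    · intro h
      obtain ⟨x, y, hxy, h2⟩ := hex_step ((k : ℤ) + 1) (by omega) a b h
      right
      fin_cases i
      · refine ⟨⟨0, x, y⟩, Or.inl ?_, ?_⟩
        · exact hxy
        · exact h2
      · refine ⟨⟨0, y, -x - y⟩, Or.inl ?_, ?_⟩
        · simp only [hx, Set.mem_ofPred_eq, Dodd] at hxy ⊢
          omega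
        · simp only [Fin.mk_one, P3.mul_def, ra, rb]
          simp only [Dodd] at h2 ⊢
          omega
      · refine ⟨⟨0, -x - y, x⟩, Or.inl ?_, ?_⟩
        · simp only [hx, Set.mem_ofPred_eq, Dodd] at hxy ⊢
          omega
        · simp only [Fin.reduceFinMk, P3.mul_def, ra, rb]
          simp only [Dodd] at h2 ⊢
          omega

theorem beta_hx (k : ℕ) : (beta hx (k + 1) : ℤ) = 9 * (k + 1) ^ 2 + 9 * (k + 1) + 3 := by
  have h (i : Fin 3) := hex_card i (k + 1)
  push_cast at h
  rw [beta, three_parts (fun _ a b => Dodd ((k : ℤ) + 1) 0 a b) _ _ _ _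
    (fun i a b => ball_hx k ⟨i, a, b⟩) (h 0) (h 1) (h 2)]
  ring

theorem hx_fin : hx.Finite := by
  have h (i : Fin 3) := (hex_card i 1).2
  refine (((h 0).union (h 1)).union (h 2)).subset ?_
  rintro ⟨i, a, b⟩ h
  simp only [Set.mem_union, Set.mem_ofPred_eq]
  simp only [hx, Set.mem_ofPred_eq] at h
  fin_cases i <;> simp [h]

theorem closure_hx : Subgroup.closure hx = ⊤ := by
  rw [eq_top_iff]
  rintro ⟨i, a, b⟩ -
  refine Ball.subset_closure _ (a.natAbs + b.natAbs + 1) ?_
  rw [ball_hx]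
  simp only [Dodd]
  omega

end Pool.Agent.N600.LG
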