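import Pool.Agent.N600.LG.P6

/-!
# No limit for the second-order term for one generating set, a limit for another one
-/

set_option autoImplicit false

open Filter Topology

namespace Pool.Agent.N600.LG

theorem b_odd (j : ℕ) : (beta ({rr, ss} : Set P3) (2 * j + 1) : ℝ) =
    9 / 4 * (2 * j + 1 : ℝ) ^ 2 + 2 * (2 * j + 1) + 3 / 4 := by
  have h : ((beta ({rr, ss} : Set P3) (2 * j + 1) : ℤ) : ℝ) = ((9 * j ^ 2 + 13 * j + 5 : ℤ) : ℝ) := by
    rw [beta_odd j]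
  push_cast at h
  rw [h]
  ring

theorem b_even (j : ℕ) : (beta ({rr, ss} : Set P3) (2 * j + 2) : ℝ) =
    9 / 4 * (2 * j + 2 : ℝ) ^ 2 + 5 / 2 * (2 * j + 2) - 1 := by
  have h : ((beta ({rr, ss} : Set P3) (2 * j + 2) : ℤ) : ℝ) =
      ((9 * (j + 1) ^ 2 + 5 * (j + 1) - 1 : ℤ) : ℝ) := by
    rw [beta_even j]
  push_cast at h
  rw [h]
  ring

theorem inv_tend (a c : ℝ) : Tendsto (fun k : ℕ => a + c / (k : ℝ)) atTop (𝓝 a) := by
  have := (tendsto_const_div_atTop_nhds_zero_nat c).const_add a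
  simpa using this

theorem c1_rs : Tendsto (fun k : ℕ => (beta ({rr, ss} : Set P3) k : ℝ) / (k : ℝ) ^ 2) atTop
    (𝓝 (9 / 4)) := by
  refine tendsto_of_tendsto_of_tendsto_of_le_of_le' (tendsto_const_nhds (x := (9 / 4 : ℝ)))
    (inv_tend (9 / 4) 4) ?_ ?_
  · filter_upwards [eventually_ge_atTop 1] with k hk
    have hk' : (1 : ℝ) ≤ k := by exact_mod_cast hk
    rw [le_div_iff₀ (by positivity)]
    rcases Nat.even_or_odd' k with ⟨m, rfl | rfl⟩
    · obtain ⟨j, rfl⟩ : ∃ j, m = j + 1 := ⟨m - 1, by omega⟩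
      rw [show 2 * (j + 1) = 2 * j + 2 from by ring, b_even]
      push_cast
      have : (0 : ℝ) ≤ j := by positivity
      nlinarith
    · rw [b_odd]
      push_cast
      have : (0 : ℝ) ≤ m := by positivity
      nlinarith
  · filter_upwards [eventually_ge_atTop 1] with k hk
    have hk' : (1 : ℝ) ≤ k := by exact_mod_cast hk
    have hk0 : (k : ℝ) ≠ 0 := by positivity
    rw [div_le_iff₀ (by positivity)]
    have e : (9 / 4 + 4 / (k : ℝ)) * (k : ℝ) ^ 2 = 9 / 4 * (k : ℝ) ^ 2 + 4 * k := by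
      field_simp
    rw [e]
    rcases Nat.even_or_odd' k with ⟨m, rfl | rfl⟩
    · obtain ⟨j, rfl⟩ : ∃ j, m = j + 1 := ⟨m - 1, by omega⟩
      rw [show 2 * (j + 1) = 2 * j + 2 from by ring, b_even]
      push_cast
      have : (0 : ℝ) ≤ j := by positivity
      nlinarith
    · rw [b_odd]
      push_cast
      have : (0 : ℝ) ≤ m := by positivity
      nlinarith

theorem sub_tend {a c : ℝ} {f : ℕ → ℕ} (hf : Tendsto f atTop atTop) :
    Tendsto (fun j : ℕ => a + c / ((f j : ℕ) : ℝ)) atTop (𝓝 a) :=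
  (inv_tend a c).comp hf

theorem no_lim (L : ℝ) : ¬ Tendsto
    (fun k : ℕ => ((beta ({rr, ss} : Set P3) k : ℝ) - 9 / 4 * (k : ℝ) ^ 2) / (k : ℝ) ^ 1) atTop
    (𝓝 L) := by
  intro h
  have f1 : Tendsto (fun j : ℕ => 2 * j + 1) atTop atTop :=
    tendsto_atTop_mono (fun j => by omega : ∀ j : ℕ, j ≤ 2 * j + 1) tendsto_id
  have f2 : Tendsto (fun j : ℕ => 2 * j + 2) atTop atTop :=
    tendsto_atTop_mono (fun j => by omega : ∀ j : ℕ, j ≤ 2 * j + 2) tendsto_id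
  have h1 := h.comp f1
  have h2 := h.comp f2
  have l1 : L = 2 := by
    refine tendsto_nhds_unique h1 ((sub_tend (a := 2) (c := 3 / 4) f1).congr fun j => ?_)
    have : (2 * (j : ℝ) + 1) ≠ 0 := by positivity
    simp only [Function.comp_apply]
    rw [b_odd]
    push_cast
    field_simp
    ring
  have l2 : L = 5 / 2 := by
    refine tendsto_nhds_unique h2 ((sub_tend (a := 5 / 2) (c := -1) f2).congr fun j => ?_)
    have : (2 * (j : ℝ) + 2) ≠ 0 := by positivity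
    simp only [Function.comp_apply]
    rw [b_even]
    push_cast
    field_simp
    ring
  rw [l1] at l2
  norm_num at l2

theorem b_hx (k : ℕ) (hk : 1 ≤ k) : (beta hx k : ℝ) = 9 * (k : ℝ) ^ 2 + 9 * k + 3 := by
  obtain ⟨j, rfl⟩ : ∃ j, k = j + 1 := ⟨k - 1, by omega⟩
  have h : ((beta hx (j + 1) : ℤ) : ℝ) = ((9 * (j + 1) ^ 2 + 9 * (j + 1) + 3 : ℤ) : ℝ) := by
    rw [beta_hx j]
  push_cast at h ⊢
  rw [h]

theorem c1_hx : Tendsto (fun k : ℕ => (beta hx k : ℝ) / (k : ℝ) ^ 2) atTop (𝓝 9) := by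
  refine tendsto_of_tendsto_of_tendsto_of_le_of_le' (tendsto_const_nhds (x := (9 : ℝ)))
    (inv_tend 9 12) ?_ ?_
  · filter_upwards [eventually_ge_atTop 1] with k hk
    have hk' : (1 : ℝ) ≤ k := by exact_mod_cast hk
    rw [le_div_iff₀ (by positivity), b_hx k hk]
    nlinarith
  · filter_upwards [eventually_ge_atTop 1] with k hk
    have hk' : (1 : ℝ) ≤ k := by exact_mod_cast hk
    have hk0 : (k : ℝ) ≠ 0 := by positivity
    rw [div_le_iff₀ (by positivity), b_hx k hk]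
    have e : (9 + 12 / (k : ℝ)) * (k : ℝ) ^ 2 = 9 * (k : ℝ) ^ 2 + 12 * k := by
      field_simp
    rw [e]
    nlinarith

theorem lim_hx : Tendsto (fun k : ℕ => ((beta hx k : ℝ) - 9 * (k : ℝ) ^ 2) / (k : ℝ) ^ 1) atTop
    (𝓝 9) := by
  refine (inv_tend 9 3).congr' ?_
  filter_upwards [eventually_ge_atTop 1] with k hk
  have hk' : (1 : ℝ) ≤ k := by exact_mod_cast hk
  have hk0 : (k : ℝ) ≠ 0 := by positivity
  rw [b_hx k hk]
  field_simp
  ring

theorem depends_on_S : ∃ (Γ : Type) (_ : Group Γ) (H : Subgroup Γ) (S S' : Set Γ),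
    H.FiniteIndex ∧ (∀ x ∈ H, ∀ y ∈ H, x * y = y * x) ∧
    S.Finite ∧ S'.Finite ∧ Subgroup.closure S = ⊤ ∧ Subgroup.closure S' = ⊤ ∧
    Tendsto (fun k : ℕ => (beta S k : ℝ) / (k : ℝ) ^ 2) atTop (𝓝 (9 / 4)) ∧
    (¬ ∃ L : ℝ, Tendsto
      (fun k : ℕ => ((beta S k : ℝ) - 9 / 4 * (k : ℝ) ^ 2) / (k : ℝ) ^ 1) atTop (𝓝 L)) ∧
    Tendsto (fun k : ℕ => (beta S' k : ℝ) / (k : ℝ) ^ 2) atTop (𝓝 9) ∧
    Tendsto (fun k : ℕ => ((beta S' k : ℝ) - 9 * (k : ℝ) ^ 2) / (k : ℝ) ^ 1) atTop (𝓝 9) :=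
  ⟨P3, inferInstance, Tr3, {rr, ss}, hx, Tr3_fin, fun x hx' y hy => Tr3_comm x y hx' hy,
    Set.toFinite _, hx_fin, closure_rs, closure_hx, c1_rs, fun ⟨L, h⟩ => no_lim L h, c1_hx,
    lim_hx⟩

end Pool.Agent.N600.LG
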