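import Pool.Agent.N600.LG.P7

/-!
# Products
-/

set_option autoImplicit false

open Filter Topology

namespace Pool.Agent.N600.LG

section
variable {Γ Λ : Type} [Group Γ] [Group Λ]

theorem Ball.one_mem (S : Set Γ) (k : ℕ) : (1 : Γ) ∈ Ball S k := ⟨[], by simp, by simp, rfl⟩

theorem Ball.succ_iff' (S : Set Γ) (k : ℕ) (g : Γ) :
    g ∈ Ball S (k + 1) ↔ ∃ s ∈ Ball S 1, g * s ∈ Ball S k := by
  constructor
  · intro h
    rcases (Ball.succ_iff S k g).1 h with h | ⟨s, hs, h⟩
    · exact ⟨1, Ball.one_mem S 1, by rwa [mul_one]⟩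
    · exact ⟨s, ⟨[s], by simp, by simpa using hs, by simp⟩, h⟩
  · rintro ⟨s, hs, h⟩
    rw [Ball.succ_iff]
    rcases (Ball.succ_iff S 0 s).1 hs with hs | ⟨t, ht, hs⟩
    · rw [Ball.zero_iff] at hs
      rw [hs, mul_one] at h
      exact Or.inl h
    · rw [Ball.zero_iff, mul_eq_one_iff_eq_inv] at hs
      refine Or.inr ⟨s, ?_, h⟩
      rw [hs, inv_inv]
      exact ht.symm

theorem Ball.inv_one {S : Set Γ} {s : Γ} (h : s⁻¹ ∈ Ball S 1) : s ∈ Ball S 1 := by
  rcases (Ball.succ_iff S 0 s⁻¹).1 h with hs | ⟨t, ht, hs⟩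
  · rw [Ball.zero_iff, inv_eq_one] at hs
    rw [hs]
    exact Ball.one_mem S 1
  · rw [Ball.zero_iff, inv_mul_eq_one] at hs
    rw [hs]
    exact ⟨[t], by simp, by simpa using ht, by simp⟩

theorem ball_prod (S : Set Γ) (T : Set Λ) (k : ℕ) :
    Ball (Ball S 1 ×ˢ Ball T 1) k = Ball S k ×ˢ Ball T k := by
  induction k with
  | zero =>
    ext ⟨x, y⟩
    rw [Set.mem_prod, Ball.zero_iff, Ball.zero_iff, Ball.zero_iff, Prod.mk_eq_one]
  | succ k ih =>
    ext ⟨x, y⟩
    rw [Set.mem_prod, Ball.succ_iff, Ball.succ_iff' S k x, Ball.succ_iff' T k y, ih]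
    constructor
    · rintro (h | ⟨⟨s, t⟩, hs, h⟩)
      · exact ⟨⟨1, Ball.one_mem S 1, by rw [mul_one]; exact h.1⟩,
          ⟨1, Ball.one_mem T 1, by rw [mul_one]; exact h.2⟩⟩
      · have hs' : s ∈ Ball S 1 ∧ t ∈ Ball T 1 := by
          rcases hs with hs | hs
          · exact hs
          · exact ⟨Ball.inv_one hs.1, Ball.inv_one hs.2⟩
        exact ⟨⟨s, hs'.1, h.1⟩, ⟨t, hs'.2, h.2⟩⟩
    · rintro ⟨⟨s, hs, h1⟩, ⟨t, ht, h2⟩⟩
      exact Or.inr ⟨(s, t), Or.inl ⟨hs, ht⟩, h1, h2⟩

theorem beta_prod (S : Set Γ) (T : Set Λ) (k : ℕ) :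
    beta (Ball S 1 ×ˢ Ball T 1) k = beta S k * beta T k := by
  rw [beta, ball_prod, Set.ncard_prod]
  rfl

theorem closure_prod' (S : Set Γ) (T : Set Λ) (hS : Subgroup.closure S = ⊤)
    (hT : Subgroup.closure T = ⊤) : Subgroup.closure (Ball S 1 ×ˢ Ball T 1) = ⊤ := by
  rw [eq_top_iff]
  rintro ⟨x, y⟩ -
  obtain ⟨k, hk⟩ := exists_ball hS x
  obtain ⟨m, hm⟩ := exists_ball hT y
  refine Ball.subset_closure _ (max k m) ?_
  rw [ball_prod]
  exact ⟨Ball.mono S (le_max_left _ _) hk, Ball.mono T (le_max_right _ _) hm⟩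

end

/-- the standard generator of the infinite cyclic group -/
def zs : Set (Multiplicative ℤ) := {Multiplicative.ofAdd 1}

theorem ball_zs (k : ℕ) (n : Multiplicative ℤ) :
    n ∈ Ball zs k ↔ -(k : ℤ) ≤ Multiplicative.toAdd n ∧ Multiplicative.toAdd n ≤ k := by
  induction k generalizing n with
  | zero =>
    rw [Ball.zero_iff]
    constructor
    · rintro rfl
      simp
    · intro h
      have : Multiplicative.toAdd n = 0 := by
        have h1 := h.1
        have h2 := h.2
        push_cast at h1 h2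
        omega
      exact Multiplicative.toAdd.injective this
  | succ k ih =>
    rw [Ball.succ_iff]
    simp only [ih, toAdd_mul]
    constructor
    · rintro (h | ⟨s, hs, h⟩)
      · push_cast
        omega
      · have : Multiplicative.toAdd s = 1 ∨ Multiplicative.toAdd s = -1 := by
          rcases hs with hs | hs
          · left
            rw [Set.mem_singleton_iff.1 hs]
            rfl
          · right
            have : s = (Multiplicative.ofAdd 1)⁻¹ := by
              rw [← Set.mem_singleton_iff.1 hs, inv_inv]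
            rw [this]
            rfl
        push_cast
        omega
    · intro h
      push_cast at h
      by_cases h1 : Multiplicative.toAdd n ≤ k
      · by_cases h2 : -(k : ℤ) ≤ Multiplicative.toAdd n
        · exact Or.inl ⟨h2, h1⟩
        · refine Or.inr ⟨Multiplicative.ofAdd 1, Or.inl rfl, ?_⟩
          rw [toAdd_ofAdd]
          omega
      · refine Or.inr ⟨(Multiplicative.ofAdd 1)⁻¹, Or.inr (by rw [inv_inv]; rfl), ?_⟩
        rw [toAdd_inv, toAdd_ofAdd]
        omega

theorem beta_zs (k : ℕ) : beta zs k = 2 * k + 1 := by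
  have : Ball zs k = Multiplicative.ofAdd '' (Finset.Icc (-(k : ℤ)) k : Set ℤ) := by
    ext n
    rw [ball_zs]
    constructor
    · intro h
      exact ⟨Multiplicative.toAdd n, by simpa using h, rfl⟩
    · rintro ⟨m, hm, rfl⟩
      simpa using hm
  rw [beta, this, Set.ncard_image_of_injective _ Multiplicative.ofAdd.injective,
    Set.ncard_coe_finset, Int.card_Icc]
  omega

theorem closure_zs : Subgroup.closure zs = ⊤ := by
  rw [eq_top_iff]
  intro n _
  refine Ball.subset_closure _ (Multiplicative.toAdd n).natAbs ?_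
  rw [ball_zs]
  omega

theorem tower (n : ℕ) : ∃ (Γ : Type) (_ : Group Γ) (H : Subgroup Γ) (S S' : Set Γ),
    H.FiniteIndex ∧ (∀ x ∈ H, ∀ y ∈ H, x * y = y * x) ∧
    S.Finite ∧ S'.Finite ∧ Subgroup.closure S = ⊤ ∧ Subgroup.closure S' = ⊤ ∧
    (∀ k, beta S k = beta ({rr, ss} : Set P3) k * (2 * k + 1) ^ n) ∧
    (∀ k, beta S' k = beta hx k * (2 * k + 1) ^ n) := by
  induction n with
  | zero =>
    exact ⟨P3, inferInstance, Tr3, {rr, ss}, hx, Tr3_fin, fun x hx' y hy => Tr3_comm x y hx' hy,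
      Set.toFinite _, hx_fin, closure_rs, closure_hx, fun k => by simp, fun k => by simp⟩
  | succ n ih =>
    obtain ⟨Γ, _, H, S, S', h1, h2, h3, h4, h5, h6, h7, h8⟩ := ih
    have hz : zs.Finite := Set.finite_singleton _
    have hfi : (H.comap (MonoidHom.fst Γ (Multiplicative ℤ))).FiniteIndex := by
      rw [Subgroup.finiteIndex_iff, Subgroup.index_comap_of_surjective]
      · exact h1.index_ne_zero
      · exact Prod.fst_surjective
    refine ⟨Γ × Multiplicative ℤ, inferInstance, H.comap (MonoidHom.fst Γ (Multiplicative ℤ)),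
      Ball S 1 ×ˢ Ball zs 1, Ball S' 1 ×ˢ Ball zs 1, hfi, ?_, ?_, ?_,
      closure_prod' S zs h5 closure_zs, closure_prod' S' zs h6 closure_zs, ?_, ?_⟩
    · rintro ⟨x, a⟩ hx' ⟨y, b⟩ hy
      rw [Prod.mk_mul_mk, Prod.mk_mul_mk, h2 x hx' y hy, mul_comm a b]
    · exact (ball_finite h3 1).prod (ball_finite hz 1)
    · exact (ball_finite h4 1).prod (ball_finite hz 1)
    · intro k
      rw [beta_prod, h7, beta_zs, pow_succ, mul_assoc]
    · intro k
      rw [beta_prod, h8, beta_zs, pow_succ, mul_assoc]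

end Pool.Agent.N600.LG
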