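import Pool.Agent.N600.LG.P8

/-!
# For every degree `d ≥ 2` the second-order term may or may not have a limit
-/

set_option autoImplicit false

open Filter Topology

namespace Pool.Agent.N600.LG

/-- `((2 + 1/k)^n - 2^n) k` converges -/
theorem u_lim (n : ℕ) : ∃ D : ℝ,
    Tendsto (fun k : ℕ => ((2 + 1 / (k : ℝ)) ^ n - 2 ^ n) * k) atTop (𝓝 D) := by
  induction n with
  | zero => exact ⟨0, by simp⟩
  | succ n ih =>
    obtain ⟨D, hD⟩ := ih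
    refine ⟨2 * D + 2 ^ n, ?_⟩
    have := ((inv_tend 2 1).mul hD).add_const (2 ^ n)
    refine this.congr' ?_
    filter_upwards [eventually_ge_atTop 1] with k hk
    have hk0 : (k : ℝ) ≠ 0 := by
      have : (1 : ℝ) ≤ k := by exact_mod_cast hk
      positivity
    have e : (1 / (k : ℝ)) * k = 1 := by field_simp
    calc (2 + 1 / (k : ℝ)) * (((2 + 1 / (k : ℝ)) ^ n - 2 ^ n) * k) + 2 ^ n
        = (2 + 1 / (k : ℝ)) * (((2 + 1 / (k : ℝ)) ^ n - 2 ^ n) * k) + 2 ^ n * (1 / (k : ℝ) * k) := by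
          rw [e, mul_one]
      _ = ((2 + 1 / (k : ℝ)) ^ (n + 1) - 2 ^ (n + 1)) * k := by ring

theorem pow_split (n k : ℕ) (hk : 1 ≤ k) :
    (2 * (k : ℝ) + 1) ^ n = (2 + 1 / (k : ℝ)) ^ n * (k : ℝ) ^ n := by
  have hk0 : (k : ℝ) ≠ 0 := by
    have : (1 : ℝ) ≤ k := by exact_mod_cast hk
    positivity
  rw [← mul_pow]
  congr 1
  field_simp

theorem first (n : ℕ) (B : ℕ → ℝ) (c : ℝ)
    (h : Tendsto (fun k : ℕ => B k / (k : ℝ) ^ 2) atTop (𝓝 c)) :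
    Tendsto (fun k : ℕ => B k * (2 * k + 1) ^ n / (k : ℝ) ^ (n + 2)) atTop (𝓝 (c * 2 ^ n)) := by
  refine (h.mul ((inv_tend 2 1).pow n)).congr' ?_
  filter_upwards [eventually_ge_atTop 1] with k hk
  have hk0 : (k : ℝ) ≠ 0 := by
    have : (1 : ℝ) ≤ k := by exact_mod_cast hk
    positivity
  rw [pow_split n k hk, pow_add]
  have h1 : (k : ℝ) ^ n ≠ 0 := pow_ne_zero _ hk0
  field_simp

theorem second (n : ℕ) (B : ℕ → ℝ) (c : ℝ) (k : ℕ) (hk : 1 ≤ k) :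
    (B k * (2 * k + 1) ^ n - c * 2 ^ n * (k : ℝ) ^ (n + 2)) / (k : ℝ) ^ (n + 1) =
      (B k - c * (k : ℝ) ^ 2) / (k : ℝ) ^ 1 * (2 + 1 / (k : ℝ)) ^ n +
        c * (((2 + 1 / (k : ℝ)) ^ n - 2 ^ n) * k) := by
  have hk0 : (k : ℝ) ≠ 0 := by
    have : (1 : ℝ) ≤ k := by exact_mod_cast hk
    positivity
  have h1 : (k : ℝ) ^ n ≠ 0 := pow_ne_zero _ hk0
  rw [pow_split n k hk, div_eq_iff (pow_ne_zero _ hk0)]
  have e : (B k - c * (k : ℝ) ^ 2) / (k : ℝ) ^ 1 * k = B k - c * (k : ℝ) ^ 2 := by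
    rw [pow_one]
    field_simp
  obtain ⟨q, hq⟩ : ∃ q, q = (B k - c * (k : ℝ) ^ 2) / (k : ℝ) ^ 1 := ⟨_, rfl⟩
  rw [← hq] at e ⊢
  calc B k * ((2 + 1 / (k : ℝ)) ^ n * (k : ℝ) ^ n) - c * 2 ^ n * (k : ℝ) ^ (n + 2)
      = (B k - c * (k : ℝ) ^ 2) * (2 + 1 / (k : ℝ)) ^ n * (k : ℝ) ^ n +
        c * (((2 + 1 / (k : ℝ)) ^ n - 2 ^ n) * k) * (k : ℝ) ^ (n + 1) := by ring
    _ = _ := by
      rw [← e]
      ring

theorem yes_lim (n : ℕ) (B : ℕ → ℝ) (c L : ℝ)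
    (h : Tendsto (fun k : ℕ => (B k - c * (k : ℝ) ^ 2) / (k : ℝ) ^ 1) atTop (𝓝 L)) :
    ∃ L' : ℝ, Tendsto (fun k : ℕ =>
      (B k * (2 * k + 1) ^ n - c * 2 ^ n * (k : ℝ) ^ (n + 2)) / (k : ℝ) ^ (n + 1)) atTop (𝓝 L') := by
  obtain ⟨D, hD⟩ := u_lim n
  refine ⟨L * 2 ^ n + c * D, ((h.mul ((inv_tend 2 1).pow n)).add (hD.const_mul c)).congr' ?_⟩
  filter_upwards [eventually_ge_atTop 1] with k hk
  rw [second n B c k hk]

theorem not_lim (n : ℕ) (B : ℕ → ℝ) (c : ℝ)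
    (h : ∀ L, ¬ Tendsto (fun k : ℕ => (B k - c * (k : ℝ) ^ 2) / (k : ℝ) ^ 1) atTop (𝓝 L)) (L' : ℝ) :
    ¬ Tendsto (fun k : ℕ =>
      (B k * (2 * k + 1) ^ n - c * 2 ^ n * (k : ℝ) ^ (n + 2)) / (k : ℝ) ^ (n + 1)) atTop
      (𝓝 L') := by
  intro h'
  obtain ⟨D, hD⟩ := u_lim n
  have h2 : ((2 : ℝ) ^ n) ≠ 0 := by positivity
  refine h ((L' - c * D) / 2 ^ n)
    (((h'.sub (hD.const_mul c)).div ((inv_tend 2 1).pow n) h2).congr' ?_)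
  filter_upwards [eventually_ge_atTop 1] with k hk
  have h3 : (2 + 1 / (k : ℝ)) ^ n ≠ 0 := by positivity
  simp only [Pi.div_apply]
  rw [second n B c k hk, add_sub_cancel_right, mul_div_assoc, div_self h3, mul_one]

theorem all_degrees (d : ℕ) (hd : 2 ≤ d) :
    ∃ (Γ : Type) (_ : Group Γ) (H : Subgroup Γ) (S S' : Set Γ) (c c' L' : ℝ),
    H.FiniteIndex ∧ (∀ x ∈ H, ∀ y ∈ H, x * y = y * x) ∧
    S.Finite ∧ S'.Finite ∧ Subgroup.closure S = ⊤ ∧ Subgroup.closure S' = ⊤ ∧ 0 < c ∧ 0 < c' ∧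
    Tendsto (fun k : ℕ => (beta S k : ℝ) / (k : ℝ) ^ d) atTop (𝓝 c) ∧
    (¬ ∃ L : ℝ, Tendsto
      (fun k : ℕ => ((beta S k : ℝ) - c * (k : ℝ) ^ d) / (k : ℝ) ^ (d - 1)) atTop (𝓝 L)) ∧
    Tendsto (fun k : ℕ => (beta S' k : ℝ) / (k : ℝ) ^ d) atTop (𝓝 c') ∧
    Tendsto (fun k : ℕ => ((beta S' k : ℝ) - c' * (k : ℝ) ^ d) / (k : ℝ) ^ (d - 1)) atTop
      (𝓝 L') := by
  obtain ⟨n, rfl⟩ : ∃ n, d = n + 2 := ⟨d - 2, by omega⟩
  obtain ⟨Γ, g, H, S, S', h1, h2, h3, h4, h5, h6, h7, h8⟩ := tower n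
  obtain ⟨L', hL⟩ := yes_lim n (fun k => (beta hx k : ℝ)) 9 9 lim_hx
  refine ⟨Γ, g, H, S, S', 9 / 4 * 2 ^ n, 9 * 2 ^ n, L', h1, h2, h3, h4, h5, h6, by positivity,
    by positivity, ?_, ?_, ?_, ?_⟩
  · refine (first n (fun k => (beta ({rr, ss} : Set P3) k : ℝ)) (9 / 4) c1_rs).congr fun k => ?_
    rw [h7]
    push_cast
    rfl
  · rintro ⟨L, hL⟩
    refine not_lim n (fun k => (beta ({rr, ss} : Set P3) k : ℝ)) (9 / 4) no_lim L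
      (hL.congr fun k => ?_)
    rw [h7]
    push_cast
    rfl
  · refine (first n (fun k => (beta hx k : ℝ)) 9 c1_hx).congr fun k => ?_
    rw [h8]
    push_cast
    rfl
  · refine hL.congr fun k => ?_
    rw [h8]
    push_cast
    rfl

end Pool.Agent.N600.LG
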