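import Pool.Agent.N600.LG.Cross

/-!
# Virtually infinite cyclic groups
-/

set_option autoImplicit false

namespace Pool.Agent.N600.LG

variable {Γ : Type} [Group Γ]

theorem exists_cross [Infinite Γ] (H : Subgroup Γ) [H.FiniteIndex] [IsCyclic H] :
    ∃ (ε : Γ →* ℤˣ) (x : Γ → ℤ), (∀ g h, x (g * h) = x g + (ε g : ℤ) * x h) ∧
      {g | ε g = 1 ∧ x g = 0}.Finite := by
  classical
  set N : Subgroup Γ := H.normalCore with hN
  have hNn : N.Normal := Subgroup.normalCore_normal H
  have hNf : N.FiniteIndex := Subgroup.finiteIndex_normalCore H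
  have hNc : IsCyclic N := isCyclic_of_injective (Subgroup.inclusion (Subgroup.normalCore_le H))
    (Subgroup.inclusion_injective _)
  have hNi : Infinite N := by
    by_contra h
    rw [not_infinite_iff_finite] at h
    have h1 := N.card_mul_index
    have h2 : Nat.card N ≠ 0 := Nat.card_pos.ne'
    have h3 : N.index ≠ 0 := hNf.index_ne_zero
    rw [Nat.card_eq_zero_of_infinite (α := Γ)] at h1
    exact (mul_ne_zero h2 h3) h1
  obtain ⟨z', hz'⟩ := IsCyclic.exists_generator (α := N)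
  set z : Γ := (z' : Γ) with hz
  have hgen : ∀ g ∈ N, ∃ k : ℤ, z ^ k = g := by
    intro g hg
    obtain ⟨k, hk⟩ := Subgroup.mem_zpowers_iff.1 (hz' ⟨g, hg⟩)
    refine ⟨k, ?_⟩
    have := congrArg (Subtype.val) hk
    simpa [hz] using this
  have hzN : ∀ k : ℤ, z ^ k ∈ N := fun k => N.zpow_mem z'.2 k
  have hinj : ∀ a b : ℤ, z ^ a = z ^ b → a = b := by
    have h1 : orderOf z' = 0 := Infinite.orderOf_eq_zero_of_forall_mem_zpowers hz'
    have h2 : Function.Injective (fun n : ℤ => z' ^ n) := by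
      rw [injective_zpow_iff_not_isOfFinOrder, ← orderOf_eq_zero_iff]
      exact h1
    intro a b hab
    apply h2
    apply Subtype.ext
    simpa [hz] using hab
  -- the action on `N`
  have hn : ∀ g : Γ, ∃ n : ℤ, z ^ n = g * z * g⁻¹ := fun g => hgen _ (hNn.conj_mem _ z'.2 g)
  choose n hn using hn
  have hconj : ∀ (g : Γ) (k : ℤ), g * z ^ k * g⁻¹ = z ^ (n g * k) := by
    intro g k
    rw [zpow_mul, hn, conj_zpow]
  have hn1 : n 1 = 1 := by
    apply hinj
    rw [hn]
    simp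
  have hnm : ∀ g h, n (g * h) = n g * n h := by
    intro g h
    apply hinj
    rw [← hconj g (n h), hn, hn]
    group
  have hnz : ∀ k : ℤ, n (z ^ k) = 1 := by
    intro k
    apply hinj
    rw [hn]
    group
  let ν : Γ →* ℤ := { toFun := n, map_one' := hn1, map_mul' := hnm }
  let ε : Γ →* ℤˣ := ν.toHomUnits
  have hε : ∀ g, ((ε g : ℤˣ) : ℤ) = n g := fun g => rfl
  have : Finite (Γ ⧸ N) := Subgroup.finite_quotient_of_finiteIndex
  have : Fintype (Γ ⧸ N) := Fintype.ofFinite _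
  set r : Γ ⧸ N → Γ := fun i => Quotient.out i with hr
  have hri : ∀ i, (QuotientGroup.mk (r i) : Γ ⧸ N) = i := fun i => QuotientGroup.out_eq' i
  have hm : ∀ (g : Γ) (i : Γ ⧸ N), ∃ m : ℤ,
      z ^ m = (r ((QuotientGroup.mk g : Γ ⧸ N) * i))⁻¹ * (g * r i) := by
    intro g i
    apply hgen
    rw [← QuotientGroup.eq_one_iff]
    simp only [QuotientGroup.mk_mul, QuotientGroup.mk_inv, hri]
    group
  choose m hm using hm
  have hm' : ∀ g i, g * r i = r ((QuotientGroup.mk g : Γ ⧸ N) * i) * z ^ (m g i) := by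
    intro g i
    rw [hm]
    group
  have hcoc : ∀ g h i, m (g * h) i = m g ((QuotientGroup.mk h : Γ ⧸ N) * i) + m h i := by
    intro g h i
    apply hinj
    have h1 := hm' (g * h) i
    have h2 := hm' g ((QuotientGroup.mk h : Γ ⧸ N) * i)
    have h3 := hm' h i
    rw [mul_assoc, h3, ← mul_assoc, h2, QuotientGroup.mk_mul, mul_assoc (QuotientGroup.mk g) _ i,
      mul_assoc, ← zpow_add] at h1
    exact (mul_left_cancel h1).symm
  have hnr : ∀ g i, n (r ((QuotientGroup.mk g : Γ ⧸ N) * i)) = n g * n (r i) := by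
    intro g i
    have h1 := congrArg n (hm' g i)
    rw [hnm, hnm, hnz, mul_one] at h1
    exact h1.symm
  set X : Γ → ℤ := fun g => ∑ i, n (r ((QuotientGroup.mk g : Γ ⧸ N) * i)) * m g i with hX
  have hXc : ∀ g h, X (g * h) = X g + n g * X h := by
    intro g h
    simp only [hX]
    have e1 : ∑ i, n (r ((QuotientGroup.mk g : Γ ⧸ N) * i)) * m g i =
        ∑ i, n (r ((QuotientGroup.mk (g * h) : Γ ⧸ N) * i)) *
          m g ((QuotientGroup.mk h : Γ ⧸ N) * i) := by
      rw [← Equiv.sum_comp (Equiv.mulLeft (QuotientGroup.mk h : Γ ⧸ N))]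
      apply Finset.sum_congr rfl
      intro i _
      rw [Equiv.coe_mulLeft, QuotientGroup.mk_mul, mul_assoc]
    rw [e1, Finset.mul_sum, ← Finset.sum_add_distrib]
    apply Finset.sum_congr rfl
    intro i _
    rw [hcoc, mul_add]
    congr 1
    rw [QuotientGroup.mk_mul, mul_assoc, hnr g, mul_assoc]
  have hXz : ∀ k : ℤ, X (z ^ k) = k * Fintype.card (Γ ⧸ N) := by
    intro k
    simp only [hX]
    have hone : (QuotientGroup.mk (z ^ k) : Γ ⧸ N) = 1 := (QuotientGroup.eq_one_iff _).2 (hzN k)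
    have : ∀ i : Γ ⧸ N, n (r ((QuotientGroup.mk (z ^ k) : Γ ⧸ N) * i)) * m (z ^ k) i = k := by
      intro i
      have h1 := hm' (z ^ k) i
      rw [hone, one_mul] at h1 ⊢
      apply hinj
      rw [← hconj, ← h1]
      group
    rw [Finset.sum_congr rfl (fun i _ => this i), Finset.sum_const, Finset.card_univ]
    rw [nsmul_eq_mul, mul_comm]
  refine ⟨ε, X, fun g h => by rw [hXc, hε], ?_⟩
  refine Set.Finite.of_finite_image (f := fun g => (QuotientGroup.mk g : Γ ⧸ N))
    (Set.toFinite _) ?_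
  rintro g ⟨hg1, hg2⟩ g' ⟨hg1', hg2'⟩ heq
  obtain ⟨k, hk⟩ := hgen _ (QuotientGroup.eq.1 heq)
  have h1 : g' = g * z ^ k := by
    rw [hk]
    group
  have h2 : X g' = X g + n g * X (z ^ k) := by
    rw [h1, hXc]
  have h3 : n g = 1 := by
    rw [← hε, hg1]
    rfl
  rw [hg2, hg2', h3, hXz] at h2
  have h4 : (Fintype.card (Γ ⧸ N) : ℤ) ≠ 0 := by
    exact_mod_cast Fintype.card_ne_zero
  have h5 : k = 0 := by
    have : k * (Fintype.card (Γ ⧸ N) : ℤ) = 0 := by linarith
    exact (mul_eq_zero.1 this).resolve_right h4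
  rw [h1, h5]
  simp

/-- groups with an infinite cyclic subgroup of finite index -/
theorem virt_growth [Infinite Γ] (H : Subgroup Γ) [H.FiniteIndex] [IsCyclic H] (S : Set Γ)
    (hSf : S.Finite) (hS : Subgroup.closure S = ⊤) :
    ∃ (D : ℕ) (b : ℤ) (k0 : ℕ), 0 < D ∧ ∀ k, k0 ≤ k → (beta S k : ℤ) = D * k + b := by
  obtain ⟨ε, x, hx, hker⟩ := exists_cross H
  exact cross_growth S hS hSf ε x hx hker

end Pool.Agent.N600.LG
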